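import Pool.Agent.Helper84.OV.Defs

/-!
# Project OV (MP_57df85_nt, Bateman's equation: finiteness of the solutions with odd common value): the zero estimate

Setting: primes `p < q`, `P = (p,q)`, `U = ± p^s`, `V = ± q^t`, `(q-1) p U² - (p-1) q V² = q - p`.  A triple `B` of polynomials
in `X, Y` stands for the function `B 0 + B 1 U u/u(P) + B 2 V v/v(P)`, `u² = (X-Y)/(X(1-Y))`, `v² = (Y-X)/(Y(1-X))`, with the value
`evt p q U V B` at `P`; the operators `naX`, `naY` are `E ∂/∂X`, `E ∂/∂Y`.  ZERO ESTIMATE: for a triple `A` of small height, after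
division by a power of a suitable irreducible `G` with `G(P) = 0`, some word in `naX`, `naY` of length at most `t/M0` gives a
function with nonzero value at `P`.

Method.  Pigeonhole gives an irreducible `G` of degree at most `R` and height `q^(2/R)` with `G(P) = 0`, `G_Y(P) ≠ 0`.  The Taylor
expansion along the curve `G = 0` at `P` is a ring homomorphism `Ψ : ℤ[X][Y] → ℚ⟦τ⟧`, `d/dτ Ψ(S) = Ψ(D S)`, `D = G_Y ∂_X - G_X ∂_Y`, with
kernel `(G)`; the order of `Ψ(S)` is small for all `S` of small height which are not divisible by `G` (elimination of `Y`).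
Wronskians of the three functions along the curve and small heights of constants give the result.

Every packet is one `Prop` `S_XXX`; its docstring is a complete proof.  Other packets named in a docstring are hypotheses of the
statement (`OrdProp`, `KerProp` are the conclusions of ORD, KER).  Deliver `Pool/Agent/<Seat>/OV/XXX.lean`, theorem `t : S_XXX`.
-/

set_option autoImplicit false

open Finset

namespace Pool.Agent.Helper84.OV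

open scoped Polynomial

/-- the derivation `G_Y ∂_X - G_X ∂_Y` -/
noncomputable def DG (G S : R2) : R2 := Polynomial.derivative G * dX S - dX G * Polynomial.derivative S

/-- the derivation on triples -/
noncomputable def naD (G : R2) (B : Fin 3 → R2) : Fin 3 → R2 :=
  fun i => Polynomial.derivative G * naX B i - dX G * naY B i

/-- `E D(u)/u` -/
noncomputable def etu (G : R2) : R2 :=
  Polynomial.derivative G * (YY ^ 2 * (1 - XX) * (1 - YY)) + dX G * (XX * YY * (1 - XX) ^ 2)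

/-- `E D(v)/v` -/
noncomputable def etv (G : R2) : R2 :=
  Polynomial.derivative G * (XX * YY * (1 - YY) ^ 2) + dX G * (XX ^ 2 * (1 - XX) * (1 - YY))

/-- 3 x 3 determinant with rows `a, b, c` -/
def w3 {A : Type} [CommRing A] (a b c : Fin 3 → A) : A :=
  a 0 * (b 1 * c 2 - b 2 * c 1) - a 1 * (b 0 * c 2 - b 2 * c 0) + a 2 * (b 0 * c 1 - b 1 * c 0)

/-- 2 x 2 minor of the columns `i, j` -/
def w2 {A : Type} [CommRing A] (a b : Fin 3 → A) (i j : Fin 3) : A := a i * b j - b i * a j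

/-- derivative of power series -/
noncomputable abbrev dd (f : PowerSeries ℚ) : PowerSeries ℚ := PowerSeries.derivative ℚ f

/-- `Ψ` is the Taylor expansion along the curve `G = 0` at `(p,q)` -/
structure Br (G : R2) (p q : ℤ) (Ψ : R2 →+* PowerSeries ℚ) : Prop where
  ev : ∀ S, PowerSeries.constantCoeff (Ψ S) = ((ev p q S : ℤ) : ℚ)
  der : ∀ S, dd (Ψ S) = Ψ (DG G S)
  zero : Ψ G = 0

/-- the expansions of `u/u(P)` and `v/v(P)` along the curve -/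
structure UV (G : R2) (p q : ℤ) (Ψ : R2 →+* PowerSeries ℚ) (uh vh : PowerSeries ℚ) : Prop where
  u0 : PowerSeries.constantCoeff uh = 1
  v0 : PowerSeries.constantCoeff vh = 1
  u2 : uh ^ 2 * Ψ (XX * (1 - YY)) * ((p - q : ℤ) : PowerSeries ℚ) =
    Ψ (XX - YY) * ((p * (1 - q) : ℤ) : PowerSeries ℚ)
  v2 : vh ^ 2 * Ψ (YY * (1 - XX)) * ((q - p : ℤ) : PowerSeries ℚ) =
    Ψ (YY - XX) * ((q * (1 - p) : ℤ) : PowerSeries ℚ)
  du : dd uh * Ψ EE = uh * Ψ (etu G)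
  dv : dd vh * Ψ EE = vh * Ψ (etv G)

/-- `(Ψ(B 0), uh Ψ(B 1), vh Ψ(B 2))` -/
noncomputable def ff (Ψ : R2 →+* PowerSeries ℚ) (uh vh : PowerSeries ℚ) (B : Fin 3 → R2) :
    Fin 3 → PowerSeries ℚ :=
  ![Ψ (B 0), uh * Ψ (B 1), vh * Ψ (B 2)]

/-! ## Part I: elimination -/

/-- PACKET RES (1.5 h).  Resultant by hand.
Proof.  `d = G.natDegree ≥ 1`.  Sylvester matrix `M` over `ℤ[X]`, of size `d + n` (index type `Fin d ⊕ Fin n` for the rows,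
`Fin (d+n)` for the columns, or reindex): the rows are the `Y`-coefficients of `Y^i S` (`i < d`) and of `Y^j G` (`j < n`), all of `Y`-degree
`< d + n`.  `N = det M`.  `N ≠ 0`: otherwise (`Matrix.exists_vecMul_eq_zero_iff`, `ℤ[X]` is a domain) there is a nonzero vector
`(a_i), (b_j)` with `a S + b G = 0`, `a = ∑ a_i Y^i`, `b = ∑ b_j Y^j`.  `G` is prime (`Irreducible.prime`, unique factorisation domain), does not
divide `S`, so `G ∣ a`, and `a = 0` because `natDegree a < natDegree G`; so `b G = 0`, `b = 0`, contradiction.  `adj(M) M = N 1`: the row `0` of `adj(M)`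
gives `a, b` with `a S + b G = C N`.  Norm: `N = ∑_σ ± ∏_r M r (σ r)`, `n1 N ≤ ∏_r ∑_k n1 (M r k) = nrm S ^ d * nrm G ^ n`. -/
def S_RES : Prop := ∀ (S G : R2) (n : ℕ), Irreducible G → 1 ≤ G.natDegree → S.natDegree ≤ n → ¬ G ∣ S →
  ∃ (N : ℤ[X]) (a b : R2), N ≠ 0 ∧ Polynomial.C N = a * S + b * G ∧
    n1 N ≤ nrm S ^ G.natDegree * nrm G ^ n

/-- PACKET LOW (0.4 h).
Proof.  `N = (X - p)^k M`, `M ≠ 0`; let `e = M.natTrailingDegree`.  The coefficient of `X^e` in `N` is `(-p)^k M_e`, so (if `p ≠ 0`) `|p|^k ≤ |N_e| ≤ n1 N`.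
If `p = 0`: `0^k ≤ 1 ≤ n1 N` (`n1_pos`). -/
def S_LOW : Prop := ∀ (N : ℤ[X]) (p : ℤ) (k : ℕ), N ≠ 0 → (Polynomial.X - Polynomial.C p) ^ k ∣ N →
  p.natAbs ^ k ≤ n1 N

/-- PACKET PSI (1.2 h).
Proof.  `D = DG G` is additive and `D (S T) = D S * T + S * D T`, `D G = 0`.  `Ψ S = PowerSeries.mk fun j => (ev p q (D^[j] S)) / j!`.  Leibniz:
`D^[n] (S T) = ∑_(i+j=n) choose n i D^[i] S * D^[j] T` (induction; or `Derivation`), so `Ψ` is multiplicative.  The rest is clear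
(`D^[j] G = 0` for `j ≥ 1` and `ev p q G = 0`). -/
def S_PSI : Prop := ∀ (G : R2) (p q : ℤ), ev p q G = 0 → ∃ Ψ : R2 →+* PowerSeries ℚ, Br G p q Ψ

/-- the order of `Ψ S` is small if `G` does not divide `S` -/
def OrdProp : Prop := ∀ (G : R2) (p q : ℤ) (Ψ : R2 →+* PowerSeries ℚ), Br G p q Ψ → Irreducible G →
  1 ≤ G.natDegree → ev p q (Polynomial.derivative G) ≠ 0 → ∀ (S : R2) (n k : ℕ), ¬ G ∣ S → S.natDegree ≤ n →
  PowerSeries.X ^ k ∣ Ψ S → p.natAbs ^ k ≤ nrm S ^ G.natDegree * nrm G ^ n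

/-- PACKET ORD (from RES and LOW, 1 h).
Proof.  RES: `C N = a S + b G`, so `Ψ (C N) = Ψ a Ψ S` is divisible by `X^k`.  `N = (X - p)^e M` with `M(p) ≠ 0` (`Polynomial.exists_eq_pow_rootMultiplicity_mul_and_not_dvd`).
`x = Ψ (XX - p)` has constant coefficient `0` and `dd x = Ψ (DG G XX)`, of constant coefficient `ev p q G_Y ≠ 0`; so `x = X * unit`.  `Ψ (C N) = x^e Ψ (C M)`,
`Ψ (C M)` has constant coefficient `M(p) ≠ 0`: a unit.  So `Ψ (C N) = X^e * unit`, `k ≤ e`, `(X - p)^k ∣ N`: LOW. -/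
def S_ORD : Prop := S_RES → S_LOW → OrdProp

/-- kernel of `Ψ` -/
def KerProp : Prop := ∀ (G : R2) (p q : ℤ) (Ψ : R2 →+* PowerSeries ℚ), Br G p q Ψ → Irreducible G →
  1 ≤ G.natDegree → ev p q (Polynomial.derivative G) ≠ 0 → 2 ≤ p → ∀ S : R2, Ψ S = 0 → G ∣ S

/-- PACKET KER (from OrdProp, 0.2 h).
Proof.  If `G ∤ S` then `2^k ≤ p^k ≤ nrm S ^ d * nrm G ^ n` for all `k`. -/
def S_KER : Prop := OrdProp → KerProp

/-- PACKET CHT (small heights of constants, 1.2 h).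
Proof.  Pseudo-division: `d = G.natDegree`, `l = G.leadingCoeff`.  CLAIM: for `S` with `natDegree ≤ n` there is `r` with `natDegree r < d`,
`G ∣ C l ^ (n+1) * S - r`, `nrm r ≤ nrm S * (2 nrm G)^(n+1)`.  Induction on `n`: if `n < d` take `r = C l ^ (n+1) * S`.  If `n ≥ d` (so `n ≥ 1`) let
`S' = C l * S - C (S.coeff n) * Y^(n-d) * G`, `natDegree S' ≤ n-1`, `nrm S' ≤ 2 nrm G nrm S`; apply the claim to `S'`, `n-1`.
Let `r1`, `r2` be the remainders of `S1`, `S2` (same `n`).  `G ∣ b r1 - a r2`, of `Y`-degree `< d`, so `b r1 = a r2`.  `r2 ≠ 0` (otherwise `G ∣ C l^(n+1) S2`, `G` prime,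
`G ∤ C l` as `natDegree G ≥ 1`, `C l ≠ 0`; so `G ∣ S2`).  Let `c2 ≠ 0` be a coefficient of `r2`, `c1` the same coefficient of `r1`: `b c1 = a c2 ≠ 0`,
so `b ∣ c2`, `a ∣ c1` (coprime), `|b| ≤ |c2| ≤ nrm r2`, `|a| ≤ |c1| ≤ nrm r1`. -/
def S_CHT : Prop := ∀ (G S1 S2 : R2) (a b : ℤ) (n : ℕ), Irreducible G → 1 ≤ G.natDegree →
  S1.natDegree ≤ n → S2.natDegree ≤ n → IsCoprime a b → a ≠ 0 → b ≠ 0 → ¬ G ∣ S2 →
  G ∣ (b : R2) * S1 - (a : R2) * S2 →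
  a.natAbs ≤ nrm S1 * (2 * nrm G) ^ (n + 1) ∧ b.natAbs ≤ nrm S2 * (2 * nrm G) ^ (n + 1)

/-! ## Part II: power series -/

/-- PACKET LD2 (0.6 h).
Proof.  Let `m` be the order of `g`, `c = f_m / g_m` if the order of `f` is at least `m`, and otherwise exchange roles: if `ord f = k < m`, the lowest coefficient (degree `k+m-1`) of
`f dd g - dd f g` is `(m-k) f_k g_m ≠ 0`, contradiction.  `h = f - c g` satisfies the same equation, `ord h > m`; if `h ≠ 0`, the lowest coefficient of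
`h dd g - dd h g` is `(m - ord h) h g_m ≠ 0`.  So `h = 0`. -/
def S_LD2 : Prop := ∀ f g : PowerSeries ℚ, g ≠ 0 → f * dd g = dd f * g → ∃ c : ℚ, f = PowerSeries.C c * g

/-- PACKET LD3 (from LD2, 0.6 h).
Proof.  If `f 0 = 0` take `c = (1,0,0)`.  Otherwise `a = f0 f1' - f0' f1`, `b = f0 f2' - f0' f2`; identity `f0 w3 = a b' - a' b` (`ring` after `map_mul`, product rule).
So `a b' = a' b`.  If `a = 0`: `f1 = c f0` by LD2.  Otherwise `b = c a` by LD2, i.e. `f0 (f2 - c f1)' = f0' (f2 - c f1)`, so `f2 - c f1 = c' f0` by LD2. -/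
def S_LD3 : Prop := S_LD2 → ∀ f : Fin 3 → PowerSeries ℚ,
  w3 f (fun i => dd (f i)) (fun i => dd (dd (f i))) = 0 →
  ∃ c : Fin 3 → ℚ, c ≠ 0 ∧ ∑ i, PowerSeries.C (c i) * f i = 0

/-- PACKET SQR (square roots, 0.6 h).
Proof.  `a b⁻¹` has constant coefficient `1`.  A power series `z` over `ℚ` with constant coefficient `1` is a square of a series with constant coefficient `1`: coefficients by recursion
`w_0 = 1`, `w_n = (z_n - ∑_(0<i<n) w_i w_(n-i)) / 2` (or a binomial series, or Hensel). -/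
def S_SQR : Prop := ∀ a b : PowerSeries ℚ, PowerSeries.constantCoeff a = PowerSeries.constantCoeff b →
  PowerSeries.constantCoeff a ≠ 0 → ∃ w : PowerSeries ℚ, PowerSeries.constantCoeff w = 1 ∧ w ^ 2 * b = a

/-- PACKET UVH (from SQR, 1 h).
Proof.  `a = Ψ(X-Y) p(1-q)`, `b = Ψ(X(1-Y)) (p-q)`, both with constant coefficient `(p-q) p (1-q) ≠ 0`; SQR gives `uh`.  `DG G XX = G_Y`, `DG G YY = -G_X` (`G_X = dX G`).
From `uh² b = a`: `2 a b uh' = uh (a' b - a b')`; cancel the constants: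
`2 Ψ((X-Y)X(1-Y)) uh' = uh Ψ((G_Y+G_X) X(1-Y) - (X-Y)(G_Y (1-Y) + X G_X)) = uh Ψ(G_Y Y(1-Y) + G_X X(1-X))`; times `Ψ(Y(1-X))`.  The same for `vh`:
`2 Ψ((Y-X)Y(1-X)) vh' = vh Ψ(-(G_Y+G_X) Y(1-X) + (Y-X)(G_X(1-X) + Y G_Y)) = vh Ψ(G_Y Y(Y-1) - G_X X(1-X))`; times `-Ψ(X(1-Y))`. -/
def S_UVH : Prop := S_SQR → ∀ (G : R2) (p q : ℤ) (Ψ : R2 →+* PowerSeries ℚ), Br G p q Ψ → 2 ≤ p → p < q →
  ∃ uh vh : PowerSeries ℚ, UV G p q Ψ uh vh

/-- PACKET WDT (1 h).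
Proof.  (1) `E D(B_i) + (0, etu, etv)_i B_i = (naD G B)_i` (`ring`), so `dd (f_i) Ψ E = d_i Ψ((naD G B)_i)`, `d = (1, uh, vh)`: this is (1).
(2) from (1).  (3) Differentiate (1): `f'' E + f' E' = (d_i Ψ(naD B i))'`, times `E`, use (1) for `naD G B`: `f'' E² + f' E' E = d_i Ψ(naD(naD B) i)`.
So the rows `f, f' E, f'' E² + (..) f' E` are `d_i Ψ(..)`: determinant. -/
def S_WDT : Prop := ∀ (G : R2) (p q : ℤ) (Ψ : R2 →+* PowerSeries ℚ) (uh vh : PowerSeries ℚ) (B : Fin 3 → R2),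
  Br G p q Ψ → UV G p q Ψ uh vh →
  (∀ i, dd (ff Ψ uh vh B i) * Ψ EE = ff Ψ uh vh (naD G B) i) ∧
  (∀ i j, w2 (ff Ψ uh vh B) (fun i => dd (ff Ψ uh vh B i)) i j * Ψ EE =
    (![1, uh, vh] i) * (![1, uh, vh] j) * Ψ (w2 B (naD G B) i j)) ∧
  w3 (ff Ψ uh vh B) (fun i => dd (ff Ψ uh vh B i)) (fun i => dd (dd (ff Ψ uh vh B i))) * Ψ EE ^ 3 =
    uh * vh * Ψ (w3 B (naD G B) (naD G (naD G B)))

/-- PACKET WRD (0.8 h).
Proof.  `{C | evt p q u v C = 0}` is an `R2`-submodule of `Fin 3 → R2` (`evt (h C) = ev h * evt C`).  Let `M_j` be the span of all `nab w B` with `w.length ≤ j`.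
`naX (h C) = h naX C + EE dX h C`, `naY (h C) = h naY C + EE h_Y C`, so `naD G (h C) = h naD G C + EE (DG G h) C`, and
`naD G (nab w B) = G_Y nab (true :: w) B - G_X nab (false :: w) B`: `naD G` maps `M_j` to `M_(j+1)`.  So `(naD G)^[j] B ∈ M_j`. -/
def S_WRD : Prop := ∀ (G : R2) (p q u v : ℤ) (B : Fin 3 → R2) (J : ℕ),
  (∀ w : List Bool, w.length ≤ J → evt p q u v (nab w B) = 0) →
  ∀ j ≤ J, evt p q u v ((naD G)^[j] B) = 0

/-- PACKET FOR (from WDT, 0.6 h).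
Proof.  `F_j = ∑ γ_i ff (naD^[j] B) i`, `γ = (1,u,v)`: constant coefficient `evt p q u v (naD^[j] B)` (constant coefficients of `uh`, `vh` are `1`), and
`dd F_j * Ψ EE = F_(j+1)` (WDT (1)); `Ψ EE` is a unit (`ev_EE`, not `0`).  By induction on `k`: `X^k ∣ F_(J+1-k)`: constant coefficient `0` and derivative divisible by `X^k`
give divisibility by `X^(k+1)` (characteristic `0`). -/
def S_FOR : Prop := S_WDT → ∀ (G : R2) (p q u v : ℤ) (Ψ : R2 →+* PowerSeries ℚ) (uh vh : PowerSeries ℚ)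
  (B : Fin 3 → R2) (J : ℕ), 2 ≤ p → p < q → Br G p q Ψ → UV G p q Ψ uh vh →
  (∀ j ≤ J, evt p q u v ((naD G)^[j] B) = 0) →
  PowerSeries.X ^ (J + 1) ∣ ff Ψ uh vh B 0 + PowerSeries.C (u : ℚ) * ff Ψ uh vh B 1 +
    PowerSeries.C (v : ℚ) * ff Ψ uh vh B 2

/-- PACKET FZR (from LD2 and LD3, 1 h).
Proof.  `F = f0 + u f1 + v f2`, `γ = (1,u,v)`.  (a) In `w3 f f' f''` the column `0` may be replaced by `F, F', F''`, which are divisible by `X^k`; so `w3 .. = 0`, and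
LD3 gives `∑ c_i f_i = 0`, `c ≠ 0`.  (b) Let `c_m ≠ 0`, `i, j` the other indices; `f_m = -(c_i f_i + c_j f_j)/c_m`, `F = λ_i f_i + λ_j f_j`.  If `λ_i = λ_j = 0`: `F = 0`.
If `λ_i ≠ 0`: `F f_j' - F' f_j = λ_i (f_i f_j' - f_i' f_j)` is divisible by `X^(k+1)`, so `f_i f_j' = f_i' f_j`; the same if `λ_j ≠ 0`.  By LD2 (if `f_j ≠ 0`, `f_i` is a multiple of `f_j`;
if `f_j = 0` trivially) all three are constant multiples of one `h ∈ {f_i, f_j}`: `F = μ h`, `μ ∈ ℚ`.  If `μ ≠ 0` then `X^k ∣ h`, `h = 0`.  So `F = 0`. -/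
def S_FZR : Prop := S_LD2 → S_LD3 → ∀ (f : Fin 3 → PowerSeries ℚ) (u v : ℚ) (k : ℕ),
  (∀ i, PowerSeries.X ^ k ∣ f i → f i = 0) →
  (∀ i j, PowerSeries.X ^ k ∣ w2 f (fun i => dd (f i)) i j → w2 f (fun i => dd (f i)) i j = 0) →
  (PowerSeries.X ^ k ∣ w3 f (fun i => dd (f i)) (fun i => dd (dd (f i))) →
    w3 f (fun i => dd (f i)) (fun i => dd (dd (f i))) = 0) →
  PowerSeries.X ^ (k + 2) ∣ f 0 + PowerSeries.C u * f 1 + PowerSeries.C v * f 2 →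
  f 0 + PowerSeries.C u * f 1 + PowerSeries.C v * f 2 = 0

/-! ## Part III: heights -/

/-- PACKET DXD (0.8 h): the `X`-degree is additive.
Proof.  Let `a`, `b` be the maximal `X`-degrees of the coefficients of `S ≠ 0` and `T`; the polynomials in `Y` of the coefficients of `X^a` in `S` and of `X^b` in `T` are not `0`, their product is the
coefficient of `X^(a+b)` in `S T`.  (Or `Polynomial.Bivariate.swap` and `natDegree_mul`.) -/
def S_DXD : Prop := ∀ (S T : R2) (n : ℕ), T ≠ 0 → DX n (S * T) → DX n S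

/-- PACKET INT (one variable interpolation, 0.7 h).
Proof.  Lagrange: `F = ∑_i F(x_i) ∏_(j ≠ i) (X - x_j)/(x_i - x_j)` over `ℚ` (`n + 1` nodes in `Z`, choose a subset of size `n+1`), the denominators are nonzero integers, the numerators have
sum of absolute values of coefficients at most `∏ (1 + x_j) ≤ (2n+1)^n`. -/
def S_INT : Prop := ∀ (F : ℤ[X]) (n M : ℕ) (Z : Finset ℕ), F.natDegree ≤ n → n + 1 ≤ Z.card →
  (∀ x ∈ Z, x ≤ 2 * n ∧ (F.eval (x : ℤ)).natAbs ≤ M) → n1 F ≤ (n + 1) * (2 * n + 1) ^ n * M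

/-- PACKET GEL (from INT and DXD, 1.5 h).
Proof.  `S ≠ 0`.  `S`, `T` have both degrees at most `n` (DXD, `natDegree_mul`).  Some `Y`-coefficient `T_j ≠ 0`; it has at most `n` roots, so there is a set `Z` of `n+1` integers `x ∈ [0,2n]` with
`T_j(x) ≠ 0`; for `x ∈ Z` the polynomial `T(x,Y) ≠ 0` has at most `n` roots: `n+1` integers `y ∈ [0,2n]` with `T(x,y) ≠ 0`, so `|S(x,y)| ≤ |(ST)(x,y)| ≤ nrm(ST) (2n)^(2n)` (`n ≥ 1`).
INT for `S(x,Y)`: `∑_j |S_j(x)| ≤ M' = (n+1)(2n+1)^n nrm(ST) (2n)^(2n)`.  INT for each `S_j`: `n1 S_j ≤ (n+1)(2n+1)^n M'`.  Sum over `j ≤ n`: `nrm S ≤ (n+1)^3 (2n+1)^(2n) (2n)^(2n) nrm(ST)`. -/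
def S_GEL : Prop := S_INT → S_DXD → ∀ (S T : R2) (n : ℕ), 1 ≤ n → T ≠ 0 → DX n (S * T) → (S * T).natDegree ≤ n →
  nrm S ≤ (2 * n + 1) ^ (4 * n + 3) * nrm (S * T)

/-- the conclusion of GEL -/
def GelProp : Prop := ∀ (S T : R2) (n : ℕ), 1 ≤ n → T ≠ 0 → DX n (S * T) → (S * T).natDegree ≤ n →
  nrm S ≤ (2 * n + 1) ^ (4 * n + 3) * nrm (S * T)

/-- PACKET MUL (0.5 h).
Proof.  `natDegree G ≥ 1`, so if `G^m ∣ A i ≠ 0` then `m ≤ natDegree (A i)`.  Take the maximal `m` such that `G^m` divides all `A i`. -/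
def S_MUL : Prop := ∀ (G : R2) (A : Fin 3 → R2), 1 ≤ G.natDegree → A ≠ 0 →
  ∃ (m : ℕ) (B : Fin 3 → R2), (∀ i, A i = G ^ m * B i) ∧ ∃ i, ¬ G ∣ B i

/-- PACKET PIG (pigeonhole, 1 h).
Proof.  Let `h` be the least natural number with `(R+1)^2 q^(2R) < (h+1)^(R^2+2R)`; `h ≥ 1`, so `h^(R^2+2R) ≤ (R+1)^2 q^(2R) ≤ ((R+1)^2 q^2)^R`, `h^(R+2) ≤ (R+1)^2 q^2`.
There are `(h+1)^((R+1)^2)` polynomials with both degrees `≤ R` and coefficients in `{0,...,h}`; their values at `(p,q)` are in `[0, (R+1)^2 h q^(2R)]`, at most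
`(R+1)^2 (h+1) q^(2R) < (h+1)^((R+1)^2)` values.  Two of them have the same value; the difference `G` has `nrm G ≤ (R+1)^2 h`, `nrm G ^ R ≤ (R+1)^(2R) h^R ≤ (R+1)^(2R+2) q^2`. -/
def S_PIG : Prop := ∀ R p q : ℕ, 1 ≤ R → 1 ≤ p → p ≤ q → ∃ G : R2, G ≠ 0 ∧ G.natDegree ≤ R ∧ DX R G ∧
  ev p q G = 0 ∧ nrm G ^ R ≤ (R + 1) ^ (2 * R + 2) * q ^ 2

/-- PACKET CUR (the curve, from PIG, GelProp, DXD and LOW, 1.5 h).
Proof.  `c = (2R+1)^(4R+3)`, `K1 = R c`, `K = K1^(R^2+R) (R+1)^(2R+2)`.  Let `G0` be the polynomial of PIG, `H = nrm G0`.  Let `n ≤ R` be minimal such that there is `G ≠ 0` with `natDegree G ≤ n`, `DX R G`,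
`ev p q G = 0`, `nrm G ≤ K1^(R-n) H`.  `G` is a product of irreducible factors (and a unit), one of them, `G1`, has `ev p q G1 = 0`; `DX R G1` (DXD), `natDegree G1 ≤ n`, `nrm G1 ≤ c K1^(R-n) H` (GelProp with
`n := R`).  By minimality `natDegree G1 = n` (if it is `< n` then `nrm G1 ≤ K1^(R-(n-1)) H` contradicts the minimality).  If `n ≥ 1`: `G1' = derivative G1 ≠ 0`, `natDegree ≤ n-1`, `nrm G1' ≤ n nrm G1 ≤ K1^(R-(n-1)) H`
(`nrm_deriv`), so `ev p q G1' ≠ 0` by minimality.  If `n = 0`: `G1 = C F`, `F(p) = 0`, `(X-p) ∣ F`, LOW: `p ≤ n1 F = nrm G1`, `p^R ≤ K q^2`, excluded.  Finally `nrm G1 ^ R ≤ (K1^(R+1) H)^R ≤ K q^2`. -/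
def S_CUR : Prop := S_PIG → GelProp → S_DXD → S_LOW → ∀ R : ℕ, 1 ≤ R → ∃ K : ℕ, ∀ p q : ℕ, 2 ≤ p → p < q → K * q ^ 2 < p ^ R →
  ∃ G : R2, Irreducible G ∧ 1 ≤ G.natDegree ∧ G.natDegree ≤ R ∧ DX R G ∧ ev p q G = 0 ∧
    ev p q (Polynomial.derivative G) ≠ 0 ∧ nrm G ^ R ≤ K * q ^ 2

/-- PACKET HTN (norms and degrees of the Wronskians, 1 h).
Proof.  `nrm EE ≤ 16`, `DX 3 EE`, `EE.natDegree ≤ 3`; `nrm (YY^2(1-XX)(1-YY))`, ... `≤ 4` with both degrees `≤ 3`.  So `nrm (naX B i), nrm (naY B i) ≤ 16 N H + 4 H ≤ 20 N H`, degrees `≤ N + 3`;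
`nrm (naD G B i) ≤ 2 * (R g) * 20 N H`, degrees `≤ N + 3 + R` (`g = nrm G`).  `w2`: `≤ 2 H * 40 R g N H`; degree `≤ 2N + 3 + R`.  `w3`: six terms, each `≤ H * 40 R g N H * 40 R g (N+3+R) 40 R g N H`, and `N + 3 + R ≤ 5 N R`
(as `N, R ≥ 1`); degree `≤ N + (N+3+R) + (N + 2 (3+R))`. -/
def S_HTN : Prop := ∀ (G : R2) (B : Fin 3 → R2) (R N H : ℕ), 1 ≤ R → 1 ≤ N → 1 ≤ H → G.natDegree ≤ R → DX R G →
  (∀ i, DX N (B i)) → (∀ i, (B i).natDegree ≤ N) → (∀ i, nrm (B i) ≤ H) →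
  (∀ i j, (w2 B (naD G B) i j).natDegree ≤ 3 * N + 9 + 3 * R ∧
    nrm (w2 B (naD G B) i j) ≤ (1000 * R * N * nrm G * H) ^ 4) ∧
  (w3 B (naD G B) (naD G (naD G B))).natDegree ≤ 3 * N + 9 + 3 * R ∧
  nrm (w3 B (naD G B) (naD G (naD G B))) ≤ (1000 * R * N * nrm G * H) ^ 6

/-! ## Part IV: the degenerate cases -/

/-- PACKET NUV (0.4 h).
Proof.  Modulo `U`: `(p-1) q V² ≡ -(q-p)`, `n0 ≡ -n2 V`, so `(p-1) q n0² ≡ (p-1) q n2² V² ≡ -(q-p) n2²`: `U` divides `(p-1) q n0² + (q-p) n2²`, which is in `[0, |U|)`: it is `0`, so `n0 = n2 = 0`, and `n1 U = 0`. -/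
def S_NUV : Prop := ∀ p q U V n0 n1 n2 : ℤ, 2 ≤ p → p < q → (q - 1) * p * U ^ 2 - (p - 1) * q * V ^ 2 = q - p →
  n0 + n1 * U + n2 * V = 0 → (p - 1) * q * n0 ^ 2 + (q - p) * n2 ^ 2 < |U| → n0 = 0 ∧ n1 = 0 ∧ n2 = 0

/-- PACKET FWR (from CHT and KerProp, 1 h).
Proof.  Let `f = ff Ψ uh vh B`, `f0 = -U f1 - V f2`, so `f0 f2' - f0' f2 = -U (f1 f2' - f1' f2)`.  WDT (2) (hypothesis `hW`), cancel the unit `vh` and `Ψ EE ≠ 0`: `Ψ(w02) = -U uh Ψ(w12)`; square, multiply with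
`Ψ(X(1-Y)) (p-q)`, use `UV.u2`: `(q-p) Ψ(X(1-Y) w02²) = U² p (q-1) Ψ((X-Y) w12²)`.  KerProp: `G ∣ (q-p) S1 - U² p (q-1) S2`, `S1 = X(1-Y) w02²`, `S2 = (X-Y) w12²`.
Suppose `G ∤ w12`.  `G ∤ X - Y` (value `p - q ≠ 0` at `P`, but `G(P) = 0`), `G` prime: `G ∤ S2`.  `g = gcd(q-p, U² p (q-1))` divides `q - 1` (`q - p` is coprime to `p` and `U = ± p^s`), `b = (q-p)/g`, `a = U² p (q-1)/g`, `|a| ≥ U²`;
`G ∤ g` (constant), so `G ∣ b S1 - a S2`; CHT with `2n+1`: `U² ≤ |a| ≤ 2 nrm(w02)² (2 nrm G)^(2n+2)`, against the hypothesis. -/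
def S_FWR : Prop := S_CHT → KerProp → S_WDT → ∀ (G : R2) (p q U V : ℤ) (s n H : ℕ) (Ψ : R2 →+* PowerSeries ℚ)
  (uh vh : PowerSeries ℚ) (B : Fin 3 → R2), Br G p q Ψ → UV G p q Ψ uh vh → Irreducible G → 1 ≤ G.natDegree →
  ev p q (Polynomial.derivative G) ≠ 0 → 2 ≤ p → p < q → Prime p → Prime q → (U = p ^ s ∨ U = -p ^ s) →
  (∀ i j, (w2 B (naD G B) i j).natDegree ≤ n) → (∀ i j, nrm (w2 B (naD G B) i j) ≤ H) →
  ff Ψ uh vh B 0 + PowerSeries.C (U : ℚ) * ff Ψ uh vh B 1 + PowerSeries.C (V : ℚ) * ff Ψ uh vh B 2 = 0 →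
  2 * (H : ℤ) ^ 2 * (2 * nrm G) ^ (2 * n + 2) < U ^ 2 →
  ∀ i j, w2 (ff Ψ uh vh B) (fun i => dd (ff Ψ uh vh B i)) i j = 0

/-- PACKET FPR (from CHT, KerProp, LD2 and NUV, 2 h).
Proof.  `f = ff Ψ uh vh B`, `d = (1,uh,vh)`, `f_i = d_i Ψ(B_i)`.  Some `B_j` is not divisible by `G`, so `Ψ(B_j) ≠ 0` (KerProp), `f_j ≠ 0`.  All `2 x 2` Wronskians are `0`, so by LD2 `f_i = r_i f_j`, `r_i ∈ ℚ`, `r_j = 1`, and
`∑ γ_i r_i = 0`, `γ = (1,U,V)`.  With `num = (1, X-Y, Y-X)`, `den = (1, X(1-Y), Y(1-X))`, `α = (1, p(1-q), q(1-p))`, `β = (1, p-q, q-p)`: `d_i² Ψ(den_i) β_i = Ψ(num_i) α_i`.  So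
`α_i β_j Ψ(num_i den_j B_i²) = r_i² α_j β_i Ψ(num_j den_i B_j²)`.  Let `r_i = x/y ≠ 0` in lowest terms, `A = α_i β_j`, `A' = α_j β_i`, nonzero integers of absolute value `≤ q³`; `G ∣ y² A S1 - x² A' S2`, `S1 = num_i den_j B_i²`,
`S2 = num_j den_i B_j²` (`G ∤ S2`: `G` does not divide `num_j`, `den_i`, whose values at `P` are not `0`).  `g = gcd(y² A, x² A')` divides `A A'`, `|g| ≤ q^6`; CHT for `a = x² A'/g`, `b = y² A/g` and `2n+2`: `x², y² ≤ q^6 H0`,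
`H0 = 4 H² (2 nrm G)^(2n+3)`.  (If `r_i = 0`: `x = 0`, `y = 1`.)  With the other two indices `i, k`: `γ_j y_i y_k + γ_i x_i y_k + γ_k x_k y_i = 0`, all coefficients at most `q^6 H0` in absolute value.  NUV: `2 q² (q^6 H0)² < |U|`, so
`y_i y_k = 0`, contradiction. -/
def S_FPR : Prop := S_CHT → KerProp → S_LD2 → S_NUV → ∀ (G : R2) (p q U V : ℤ) (n H : ℕ) (Ψ : R2 →+* PowerSeries ℚ)
  (uh vh : PowerSeries ℚ) (B : Fin 3 → R2), Br G p q Ψ → UV G p q Ψ uh vh → Irreducible G → 1 ≤ G.natDegree →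
  ev p q (Polynomial.derivative G) ≠ 0 → 2 ≤ p → p < q → (q - 1) * p * U ^ 2 - (p - 1) * q * V ^ 2 = q - p →
  (∃ i, ¬ G ∣ B i) → (∀ i, (B i).natDegree ≤ n) → (∀ i, nrm (B i) ≤ H) →
  ff Ψ uh vh B 0 + PowerSeries.C (U : ℚ) * ff Ψ uh vh B 1 + PowerSeries.C (V : ℚ) * ff Ψ uh vh B 2 = 0 →
  (∀ i j, w2 (ff Ψ uh vh B) (fun i => dd (ff Ψ uh vh B i)) i j = 0) →
  2 * q ^ 14 * (4 * (H : ℤ) ^ 2 * (2 * nrm G) ^ (2 * n + 3)) ^ 2 < |U| → False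

/-! ## Part V: the zero estimate -/

/-- ZERO ESTIMATE for one curve (assembly, helper84).
Proof.  Suppose `evt (nab w B) = 0` for all words of length `≤ k + 1`.  WRD, FOR: `X^(k+2) ∣ F`.  For `S` one of the `B_i`, `w2`, `w3`: if `X^k ∣ Ψ(S)` then `G ∣ S` (OrdProp and the size hypothesis), `Ψ(S) = 0`; as `uh`, `vh`, `Ψ EE` are units
the hypotheses of FZR hold.  So `F = 0`; FWR, FPR: contradiction. -/
def S_ZE1 : Prop := ∀ (G : R2) (p q U V : ℤ) (s k R N H : ℕ) (B : Fin 3 → R2), Irreducible G → 1 ≤ G.natDegree →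
  G.natDegree ≤ R → DX R G → ev p q G = 0 → ev p q (Polynomial.derivative G) ≠ 0 → 2 ≤ p → p < q → Prime p → Prime q →
  (U = p ^ s ∨ U = -p ^ s) → (q - 1) * p * U ^ 2 - (p - 1) * q * V ^ 2 = q - p → (∃ i, ¬ G ∣ B i) →
  1 ≤ N → 1 ≤ H → (∀ i, DX N (B i)) → (∀ i, (B i).natDegree ≤ N) → (∀ i, nrm (B i) ≤ H) →
  ((1000 * R * N * nrm G * H) ^ (6 * R) * nrm G ^ (3 * N + 9 + 3 * R) < p.natAbs ^ k) →
  2 * q ^ 14 * ((1000 * R * N * nrm G * H : ℕ) : ℤ) ^ 18 * (2 * nrm G) ^ (12 * N + 40 + 12 * R) < |U| →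
  ∃ w : List Bool, w.length ≤ k + 1 ∧ evt p q U V (nab w B) ≠ 0

/-- ZERO ESTIMATE (assembly, helper84). -/
def S_ZE : Prop := ∀ C0 M0 : ℕ, 1 ≤ C0 → 1 ≤ M0 → ∃ D q0 t0 : ℕ, ∀ p q s t : ℕ, p.Prime → q.Prime → p < q → q0 ≤ q →
  q ≤ p ^ C0 → t0 ≤ t → t ≤ s → s ≤ C0 * t → t ^ D ≤ q →
  ((q : ℤ) - 1) * p * ((p : ℤ) ^ s) ^ 2 = ((p : ℤ) - 1) * (q : ℤ) ^ (2 * t + 1) + ((q : ℤ) - p) →
  ∀ e1 e2 : ℤ, (e1 = 1 ∨ e1 = -1) → (e2 = 1 ∨ e2 = -1) → ∀ A : Fin 3 → R2, A ≠ 0 → (∀ i, DX (C0 * t) (A i)) →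
  (∀ i, (A i).natDegree ≤ C0 * t) → (∀ i, nrm (A i) ≤ t ^ (C0 * t)) →
  ∃ (G : R2) (m : ℕ) (B : Fin 3 → R2), Irreducible G ∧ ev p q G = 0 ∧ (∀ i, A i = G ^ m * B i) ∧
    (∀ i, DX (C0 * t) (B i)) ∧ (∀ i, (B i).natDegree ≤ C0 * t) ∧ (∀ i, nrm (B i) ≤ t ^ (20 * C0 * t)) ∧
    ∃ w : List Bool, M0 * w.length ≤ t ∧ evt p q (e1 * p ^ s) (e2 * q ^ t) (nab w B) ≠ 0

end Pool.Agent.Helper84.OV
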