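import Pool.Agent.Helper84.OV.Zero

/-!
# Packet OV-DXD
-/

set_option autoImplicit false

open Finset

namespace Pool.Agent.Helper84.OV.DXD

open Pool.Agent.Helper84.OV
open scoped Polynomial

lemma coeff_swap (S : R2) (i j : ℕ) :
    ((Polynomial.Bivariate.swap S).coeff i).coeff j = (S.coeff j).coeff i := by
  induction S using Polynomial.induction_on' with
  | add a b ha hb => simp only [map_add, Polynomial.coeff_add, ha, hb]
  | monomial n f =>
    induction f using Polynomial.induction_on' with
    | add a b ha hb => simp only [map_add, Polynomial.coeff_add, ha, hb]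
    | monomial m r =>
      rw [Polynomial.Bivariate.swap_monomial_monomial]
      simp only [Polynomial.coeff_monomial]
      by_cases h1 : m = i <;> by_cases h2 : n = j <;> simp [h1, h2, Polynomial.coeff_monomial]

lemma DX_iff (S : R2) (n : ℕ) : DX n S ↔ (Polynomial.Bivariate.swap S).natDegree ≤ n := by
  constructor
  · intro h
    rw [Polynomial.natDegree_le_iff_coeff_eq_zero]
    intro i hi
    ext j
    rw [coeff_swap, Polynomial.coeff_zero]
    exact Polynomial.coeff_eq_zero_of_natDegree_lt ((h j).trans_lt hi)
  · intro h j
    rw [Polynomial.natDegree_le_iff_coeff_eq_zero]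
    intro i hi
    rw [← coeff_swap, Polynomial.coeff_eq_zero_of_natDegree_lt (h.trans_lt hi), Polynomial.coeff_zero]

theorem t : S_DXD := by
  intro S T n hT h
  by_cases hS : S = 0
  · rw [hS]; exact DX_zero n
  rw [DX_iff] at h ⊢
  rw [map_mul, Polynomial.natDegree_mul] at h
  · omega
  · intro h0; exact hS (by simpa using h0)
  · intro h0; exact hT (by simpa using h0)

end Pool.Agent.Helper84.OV.DXD
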