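import Pool.Agent.Helper84.OV.Zero

/-!
# Packet OV-KER
-/

set_option autoImplicit false

namespace Pool.Agent.Helper84.OV.KER

open Pool.Agent.Helper84.OV

theorem t : S_KER := by
  intro hORD G p q Ψ hΨ hG hd hd0 hp S hS
  by_contra hn
  set b := nrm S ^ G.natDegree * nrm G ^ S.natDegree with hb
  have h1 := hORD G p q Ψ hΨ hG hd hd0 S S.natDegree b hn le_rfl (by rw [hS]; exact dvd_zero _)
  have h2 : 2 ^ b ≤ p.natAbs ^ b := Nat.pow_le_pow_left (by omega) b
  have h3 : b < 2 ^ b := Nat.lt_two_pow_self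
  omega

end Pool.Agent.Helper84.OV.KER
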