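import Pool.Agent.Helper84.OV.Zero

/-!
# Packet OV-MUL
-/

set_option autoImplicit false

namespace Pool.Agent.Helper84.OV.MUL

open Pool.Agent.Helper84.OV

theorem t : S_MUL := by
  intro G A hG hA
  have hG0 : G ≠ 0 := by rintro rfl; simp at hG
  obtain ⟨i0, hi0⟩ : ∃ i, A i ≠ 0 := by
    by_contra h
    apply hA
    funext i
    by_contra h1
    exact h ⟨i, h1⟩
  have hbd : ∀ m, (∀ i, G ^ m ∣ A i) → m ≤ (A i0).natDegree := by
    intro m hm
    have h1 := Polynomial.natDegree_le_of_dvd (hm i0) hi0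
    rw [Polynomial.natDegree_pow] at h1
    nlinarith
  classical
  have h0 : ∀ i, G ^ 0 ∣ A i := fun i => by simp
  set P : ℕ → Prop := fun m => ∀ i, G ^ m ∣ A i with hP
  set m := Nat.findGreatest P (A i0).natDegree with hm
  have hPm : P m := Nat.findGreatest_spec (P := P) (Nat.zero_le _) h0
  have hPm1 : ¬ P (m + 1) := by
    intro h
    have h1 := hbd _ h
    have h2 := Nat.le_findGreatest h1 h
    omega
  choose B hB using hPm
  refine ⟨m, B, hB, ?_⟩
  by_contra h
  apply hPm1
  intro i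
  have h1 : G ∣ B i := by
    by_contra h2
    exact h ⟨i, h2⟩
  rw [hB i, pow_succ]
  exact mul_dvd_mul_left _ h1

end Pool.Agent.Helper84.OV.MUL
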