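import Pool.Agent.Helper84.OV.ZE
import Pool.Agent.Helper84.OV.KER
import Pool.Agent.Helper2.OV.UVH
import Pool.Agent.Helper84.OV.DXD
import Pool.Agent.Helper8.OV.FOR
import Pool.Agent.Helper12.OV.CUR
import Pool.Agent.Helper13.OV.FWR
import Pool.Agent.Helper20.OV.FZR
import Pool.Agent.Helper23.OV.WRD
import Pool.Agent.Helper27.OV.FPR
import Pool.Agent.Helper32.OV.LOW
import Pool.Agent.Helper32.OV.NUV
import Pool.Agent.Helper34.OV.WDT
import Pool.Agent.Helper39.OV.ORD
import Pool.Agent.Helper45.OV.HTN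
import Pool.Agent.Helper48.OV.LD2
import Pool.Agent.Helper52.OV.SQR
import Pool.Agent.Helper66.OV.PSI
import Pool.Agent.Helper84.OV.MUL
import Pool.Agent.Helper86.OV.CHT
import Pool.Agent.Helper90.OV.INT
import Pool.Agent.Helper91.OV.GEL
import Pool.Agent.Helper92.OV.LD3
import Pool.Agent.Helper96.OV.PIG
import Pool.Agent.Helper96.OV.RES

/-!
# Project OV: the zero estimate, all packets put together
-/

set_option autoImplicit false

namespace Pool.Agent.Helper84.OV

theorem pORD : OrdProp := Helper39.OV.ORD.t Helper96.OV.RES.t Helper32.OV.LOW.t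

theorem pKER : KerProp := KER.t pORD

theorem pGel : GelProp := Helper91.OV.GEL.t Helper90.OV.INT.t DXD.t

theorem pZE1 : S_ZE1 :=
  ze1 Helper48.OV.LD2.t Helper92.OV.LD3.t pORD pKER Helper66.OV.PSI.t Helper52.OV.SQR.t Helper2.OV.UVH.t
    Helper34.OV.WDT.t Helper23.OV.WRD.t Helper8.OV.FOR.t Helper20.OV.FZR.t Helper45.OV.HTN.t
    Helper86.OV.CHT.t Helper32.OV.NUV.t Helper13.OV.FWR.t Helper27.OV.FPR.t

/-- the zero estimate -/
theorem pZE : S_ZE :=
  ze pZE1 (Helper12.OV.CUR.t Helper96.OV.PIG.t pGel DXD.t Helper32.OV.LOW.t) pGel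
    DXD.t MUL.t

end Pool.Agent.Helper84.OV
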