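import Mathlib

/-!
# Project OV (MP_57df85_nt): common definitions

`R2 = ℤ[X][Y]` (outer variable `Y`).  Triples `B : Fin 3 → R2` stand for `B 0 + B 1 * u + B 2 * v`,
`u = ((1 - Y/X)/(1 - Y))^(1/2)`, `v = ((1 - X/Y)/(1 - X))^(1/2)`.
-/

set_option autoImplicit false

open Finset

namespace Pool.Agent.Helper84.OV

open scoped Polynomial

/-- `ℤ[X][Y]` -/
abbrev R2 := Polynomial (Polynomial ℤ)

/-- the inner variable `X` -/
noncomputable def XX : R2 := Polynomial.C Polynomial.X

/-- the outer variable `Y` -/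
noncomputable def YY : R2 := Polynomial.X

/-- value at `(x, y)` -/
noncomputable def ev (x y : ℤ) : R2 →+* ℤ :=
  (Polynomial.evalRingHom x).comp (Polynomial.evalRingHom (Polynomial.C y))

/-- the partial derivative with respect to `X` (the one with respect to `Y` is `Polynomial.derivative`) -/
noncomputable def dX (S : R2) : R2 :=
  ∑ j ∈ range (S.natDegree + 1), Polynomial.monomial j (Polynomial.derivative (S.coeff j))

/-- all coefficients (polynomials in `X`) have degree at most `n` -/
def DX (n : ℕ) (S : R2) : Prop := ∀ j, (S.coeff j).natDegree ≤ n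

/-- sum of the absolute values of the coefficients, one variable -/
noncomputable def n1 (F : ℤ[X]) : ℕ := ∑ i ∈ F.support, (F.coeff i).natAbs

/-- sum of the absolute values of the coefficients -/
noncomputable def nrm (S : R2) : ℕ := ∑ j ∈ S.support, n1 (S.coeff j)

/-- `E = 2 X Y (1-X) (1-Y) (X-Y)` -/
noncomputable def EE : R2 := 2 * XX * YY * (1 - XX) * (1 - YY) * (XX - YY)

/-- `E ∂/∂X` on triples -/
noncomputable def naX (B : Fin 3 → R2) : Fin 3 → R2 :=
  ![EE * dX (B 0), EE * dX (B 1) + YY ^ 2 * (1 - XX) * (1 - YY) * B 1,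
    EE * dX (B 2) + XX * YY * (1 - YY) ^ 2 * B 2]

/-- `E ∂/∂Y` on triples -/
noncomputable def naY (B : Fin 3 → R2) : Fin 3 → R2 :=
  ![EE * Polynomial.derivative (B 0), EE * Polynomial.derivative (B 1) - XX * YY * (1 - XX) ^ 2 * B 1,
    EE * Polynomial.derivative (B 2) - XX ^ 2 * (1 - XX) * (1 - YY) * B 2]

/-- words in `naX` (`true`) and `naY` (`false`) -/
noncomputable def nab : List Bool → (Fin 3 → R2) → (Fin 3 → R2)
  | [], B => B
  | (true :: w), B => naX (nab w B)
  | (false :: w), B => naY (nab w B)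

/-- `B 0 (p,q) + u B 1 (p,q) + v B 2 (p,q)` -/
noncomputable def evt (p q u v : ℤ) (B : Fin 3 → R2) : ℤ :=
  ev p q (B 0) + u * ev p q (B 1) + v * ev p q (B 2)

/-! ## Basic lemmas -/

lemma coeff_dX (S : R2) (j : ℕ) : (dX S).coeff j = Polynomial.derivative (S.coeff j) := by
  unfold dX
  rw [Polynomial.finsetSum_coeff]
  simp only [Polynomial.coeff_monomial]
  by_cases hj : j ∈ range (S.natDegree + 1)
  · rw [sum_eq_single j]
    · simp
    · intro b _ hb; rw [if_neg hb]
    · intro h; exact absurd hj h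
  · rw [sum_eq_zero]
    · rw [mem_range, not_lt] at hj
      rw [Polynomial.coeff_eq_zero_of_natDegree_lt (by omega), map_zero]
    · intro b hb; rw [if_neg]; rintro rfl; exact hj hb

lemma dX_add (S T : R2) : dX (S + T) = dX S + dX T := by
  ext1 j; simp only [coeff_dX, Polynomial.coeff_add, map_add]

lemma dX_neg (S : R2) : dX (-S) = -dX S := by
  ext1 j; simp only [coeff_dX, Polynomial.coeff_neg, map_neg]

lemma dX_sub (S T : R2) : dX (S - T) = dX S - dX T := by
  ext1 j; simp only [coeff_dX, Polynomial.coeff_sub, map_sub]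

lemma dX_zero : dX 0 = 0 := by
  ext1 j; simp only [coeff_dX, Polynomial.coeff_zero, map_zero]

lemma dX_mul (S T : R2) : dX (S * T) = dX S * T + S * dX T := by
  ext1 j
  rw [coeff_dX, Polynomial.coeff_add, Polynomial.coeff_mul, Polynomial.coeff_mul, Polynomial.coeff_mul,
    ← sum_add_distrib, map_sum]
  refine sum_congr rfl fun x _ => ?_
  rw [Polynomial.derivative_mul, coeff_dX, coeff_dX]

lemma dX_C (F : ℤ[X]) : dX (Polynomial.C F) = Polynomial.C (Polynomial.derivative F) := by
  ext1 j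
  rw [coeff_dX, Polynomial.coeff_C, Polynomial.coeff_C]
  split_ifs <;> simp

lemma dX_XX : dX XX = 1 := by unfold XX; rw [dX_C]; simp

lemma dX_YY : dX YY = 0 := by
  ext1 j
  rw [coeff_dX]; unfold YY
  rw [Polynomial.coeff_X]
  split_ifs <;> simp

lemma dX_one : dX 1 = 0 := by
  have := dX_C 1
  simpa using this

lemma dX_pow (S : R2) (n : ℕ) : dX (S ^ n) = n * S ^ (n - 1) * dX S := by
  induction n with
  | zero => simp [dX_one]
  | succ n ih =>
    rw [pow_succ, dX_mul, ih]
    rcases n with _ | n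
    · simp
    · simp only [Nat.add_sub_cancel]
      push_cast
      ring

@[simp] lemma ev_XX (x y : ℤ) : ev x y XX = x := by simp [ev, XX]
@[simp] lemma ev_YY (x y : ℤ) : ev x y YY = y := by simp [ev, YY]
@[simp] lemma ev_C (x y : ℤ) (F : ℤ[X]) : ev x y (Polynomial.C F) = F.eval x := by simp [ev]

lemma ev_EE (x y : ℤ) : ev x y EE = 2 * x * y * (1 - x) * (1 - y) * (x - y) := by
  unfold EE
  simp only [map_mul, map_sub, map_one, ev_XX, ev_YY, map_ofNat]

/-! norms -/

lemma n1_eq (F : ℤ[X]) (s : Finset ℕ) (h : F.support ⊆ s) : n1 F = ∑ i ∈ s, (F.coeff i).natAbs := by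
  unfold n1
  refine sum_subset h fun i _ hi => ?_
  rw [Polynomial.notMem_support_iff] at hi
  simp [hi]

lemma n1_zero : n1 0 = 0 := by simp [n1]

lemma nrm_eq (S : R2) (s : Finset ℕ) (h : S.support ⊆ s) : nrm S = ∑ j ∈ s, n1 (S.coeff j) := by
  unfold nrm
  refine sum_subset h fun i _ hi => ?_
  rw [Polynomial.notMem_support_iff] at hi
  simp [hi, n1_zero]

lemma nrm_zero : nrm 0 = 0 := by simp [nrm]

lemma n1_add (F G : ℤ[X]) : n1 (F + G) ≤ n1 F + n1 G := by
  rw [n1_eq F (F.support ∪ G.support) subset_union_left,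
    n1_eq G (F.support ∪ G.support) subset_union_right,
    n1_eq (F + G) (F.support ∪ G.support) (Polynomial.support_add), ← sum_add_distrib]
  refine sum_le_sum fun i _ => ?_
  rw [Polynomial.coeff_add]
  exact Int.natAbs_add_le _ _

lemma n1_neg (F : ℤ[X]) : n1 (-F) = n1 F := by
  unfold n1
  rw [Polynomial.support_neg]
  simp

lemma n1_monomial (i : ℕ) (a : ℤ) : n1 (Polynomial.monomial i a) = a.natAbs := by
  rw [n1_eq _ {i} (Polynomial.support_monomial' _ _)]
  simp

lemma n1_sum {ι : Type*} (s : Finset ι) (f : ι → ℤ[X]) : n1 (∑ i ∈ s, f i) ≤ ∑ i ∈ s, n1 (f i) := by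
  classical
  induction s using Finset.induction_on with
  | empty => simp [n1_zero]
  | insert a s ha ih =>
    rw [sum_insert ha, sum_insert ha]
    exact (n1_add _ _).trans (by omega)

lemma n1_mul (F G : ℤ[X]) : n1 (F * G) ≤ n1 F * n1 G := by
  have h1 : F * G = ∑ i ∈ F.support, ∑ j ∈ G.support,
      Polynomial.monomial (i + j) (F.coeff i * G.coeff j) := by
    conv_lhs => rw [Polynomial.as_sum_support F, Polynomial.as_sum_support G, sum_mul_sum]
    refine sum_congr rfl fun i _ => sum_congr rfl fun j _ => ?_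
    rw [Polynomial.monomial_mul_monomial]
  rw [h1]
  refine (n1_sum _ _).trans ?_
  unfold n1
  rw [sum_mul_sum]
  refine sum_le_sum fun i _ => ?_
  refine (n1_sum _ _).trans (sum_le_sum fun j _ => ?_)
  rw [n1_monomial, Int.natAbs_mul]

lemma nrm_add (S T : R2) : nrm (S + T) ≤ nrm S + nrm T := by
  rw [nrm_eq S (S.support ∪ T.support) subset_union_left,
    nrm_eq T (S.support ∪ T.support) subset_union_right,
    nrm_eq (S + T) (S.support ∪ T.support) (Polynomial.support_add), ← sum_add_distrib]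
  refine sum_le_sum fun i _ => ?_
  rw [Polynomial.coeff_add]
  exact n1_add _ _

lemma nrm_neg (S : R2) : nrm (-S) = nrm S := by
  unfold nrm
  rw [Polynomial.support_neg]
  refine sum_congr rfl fun i _ => ?_
  rw [Polynomial.coeff_neg, n1_neg]

lemma nrm_sub (S T : R2) : nrm (S - T) ≤ nrm S + nrm T := by
  rw [sub_eq_add_neg]
  exact (nrm_add _ _).trans (by rw [nrm_neg])

lemma nrm_monomial (j : ℕ) (F : ℤ[X]) : nrm (Polynomial.monomial j F) = n1 F := by
  rw [nrm_eq _ {j} (Polynomial.support_monomial' _ _)]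
  simp

lemma nrm_C (F : ℤ[X]) : nrm (Polynomial.C F) = n1 F := by
  rw [← Polynomial.monomial_zero_left, nrm_monomial]

lemma nrm_sum {ι : Type*} (s : Finset ι) (f : ι → R2) : nrm (∑ i ∈ s, f i) ≤ ∑ i ∈ s, nrm (f i) := by
  classical
  induction s using Finset.induction_on with
  | empty => simp [nrm_zero]
  | insert a s ha ih =>
    rw [sum_insert ha, sum_insert ha]
    exact (nrm_add _ _).trans (by omega)

lemma nrm_mul (S T : R2) : nrm (S * T) ≤ nrm S * nrm T := by
  have h1 : S * T = ∑ i ∈ S.support, ∑ j ∈ T.support,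
      Polynomial.monomial (i + j) (S.coeff i * T.coeff j) := by
    conv_lhs => rw [Polynomial.as_sum_support S, Polynomial.as_sum_support T, sum_mul_sum]
    refine sum_congr rfl fun i _ => sum_congr rfl fun j _ => ?_
    rw [Polynomial.monomial_mul_monomial]
  rw [h1]
  refine (nrm_sum _ _).trans ?_
  unfold nrm
  rw [sum_mul_sum]
  refine sum_le_sum fun i _ => ?_
  refine (nrm_sum _ _).trans (sum_le_sum fun j _ => ?_)
  rw [nrm_monomial]
  exact n1_mul _ _

lemma nrm_one : nrm 1 = 1 := by
  have := nrm_C 1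
  rw [map_one] at this
  rw [this, ← Polynomial.C_1, ← Polynomial.monomial_zero_left, n1_monomial]; rfl

lemma nrm_XX : nrm XX = 1 := by
  unfold XX; rw [nrm_C, ← Polynomial.monomial_one_one_eq_X, n1_monomial]; rfl

lemma nrm_YY : nrm YY = 1 := by
  unfold YY
  rw [← Polynomial.monomial_one_one_eq_X, nrm_monomial, ← Polynomial.C_1, ← Polynomial.monomial_zero_left,
    n1_monomial]; rfl

lemma nrm_pow (S : R2) (n : ℕ) : nrm (S ^ n) ≤ nrm S ^ n := by
  induction n with
  | zero => simp [nrm_one]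
  | succ n ih =>
    rw [pow_succ, pow_succ]
    exact (nrm_mul _ _).trans (Nat.mul_le_mul_right _ ih)

lemma n1_pos {F : ℤ[X]} (h : F ≠ 0) : 1 ≤ n1 F := by
  obtain ⟨i, hi⟩ := Polynomial.nonempty_support_iff.2 h
  unfold n1
  have h1 : (F.coeff i).natAbs ≤ ∑ i ∈ F.support, (F.coeff i).natAbs :=
    single_le_sum (f := fun i => (F.coeff i).natAbs) (fun _ _ => Nat.zero_le _) hi
  have h2 : (F.coeff i).natAbs ≠ 0 := by
    rw [Polynomial.mem_support_iff] at hi
    exact Int.natAbs_ne_zero.2 hi
  omega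

lemma nrm_pos {S : R2} (h : S ≠ 0) : 1 ≤ nrm S := by
  obtain ⟨i, hi⟩ := Polynomial.nonempty_support_iff.2 h
  unfold nrm
  have h1 : n1 (S.coeff i) ≤ ∑ i ∈ S.support, n1 (S.coeff i) :=
    single_le_sum (f := fun i => n1 (S.coeff i)) (fun _ _ => Nat.zero_le _) hi
  have h2 := n1_pos (Polynomial.mem_support_iff.1 hi)
  omega

lemma n1_deriv (F : ℤ[X]) (n : ℕ) (h : F.natDegree ≤ n) : n1 (Polynomial.derivative F) ≤ n * n1 F := by
  have h1 : Polynomial.derivative F = ∑ i ∈ F.support, Polynomial.monomial (i - 1) (F.coeff i * i) := by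
    conv_lhs => rw [Polynomial.as_sum_support F, Polynomial.derivative_sum]
    refine sum_congr rfl fun i _ => ?_
    rw [Polynomial.derivative_monomial]
  rw [h1]
  refine (n1_sum _ _).trans ?_
  rw [show n1 F = ∑ i ∈ F.support, (F.coeff i).natAbs from rfl, mul_sum]
  refine sum_le_sum fun i hi => ?_
  have hi2 : i ≤ n := (Polynomial.le_natDegree_of_mem_supp i hi).trans h
  rw [n1_monomial, Int.natAbs_mul, mul_comm]
  exact Nat.mul_le_mul_right _ (by simpa using hi2)

lemma nrm_dX (S : R2) (n : ℕ) (h : DX n S) : nrm (dX S) ≤ n * nrm S := by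
  have h1 : (dX S).support ⊆ S.support := by
    intro j hj
    rw [Polynomial.mem_support_iff, coeff_dX] at hj
    rw [Polynomial.mem_support_iff]
    intro h0; rw [h0, map_zero] at hj; exact hj rfl
  rw [nrm_eq _ _ h1]
  unfold nrm
  rw [mul_sum]
  refine sum_le_sum fun j _ => ?_
  rw [coeff_dX]
  exact n1_deriv _ _ (h j)

lemma nrm_deriv (S : R2) (n : ℕ) (h : S.natDegree ≤ n) : nrm (Polynomial.derivative S) ≤ n * nrm S := by
  have h1 : Polynomial.derivative S = ∑ i ∈ S.support, Polynomial.monomial (i - 1) (S.coeff i * i) := by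
    conv_lhs => rw [Polynomial.as_sum_support S, Polynomial.derivative_sum]
    refine sum_congr rfl fun i _ => ?_
    rw [Polynomial.derivative_monomial]
  rw [h1]
  refine (nrm_sum _ _).trans ?_
  rw [show nrm S = ∑ j ∈ S.support, n1 (S.coeff j) from rfl, mul_sum]
  refine sum_le_sum fun i hi => ?_
  have hi2 : i ≤ n := (Polynomial.le_natDegree_of_mem_supp i hi).trans h
  rw [nrm_monomial, mul_comm n]
  refine (n1_mul _ _).trans (Nat.mul_le_mul_left _ ?_)
  have : ((i : ℕ) : ℤ[X]) = Polynomial.monomial 0 (i : ℤ) := by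
    rw [Polynomial.monomial_zero_left]; simp
  rw [this, n1_monomial]
  simpa using hi2

/-! degrees in `X` -/

lemma DX.mono {m n : ℕ} (h : m ≤ n) {S : R2} (hS : DX m S) : DX n S := fun j => (hS j).trans h

lemma DX_zero (n : ℕ) : DX n 0 := fun j => by simp

lemma DX.add {n : ℕ} {S T : R2} (hS : DX n S) (hT : DX n T) : DX n (S + T) := fun j => by
  rw [Polynomial.coeff_add]
  exact (Polynomial.natDegree_add_le _ _).trans (max_le (hS j) (hT j))

lemma DX.neg {n : ℕ} {S : R2} (hS : DX n S) : DX n (-S) := fun j => by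
  rw [Polynomial.coeff_neg, Polynomial.natDegree_neg]; exact hS j

lemma DX.sub {n : ℕ} {S T : R2} (hS : DX n S) (hT : DX n T) : DX n (S - T) := by
  rw [sub_eq_add_neg]; exact hS.add hT.neg

lemma DX.mul {m n : ℕ} {S T : R2} (hS : DX m S) (hT : DX n T) : DX (m + n) (S * T) := fun j => by
  rw [Polynomial.coeff_mul]
  refine Polynomial.natDegree_sum_le_of_forall_le _ _ fun x _ => ?_
  exact (Polynomial.natDegree_mul_le).trans (add_le_add (hS _) (hT _))

lemma DX_XX : DX 1 XX := fun j => by
  unfold XX; rw [Polynomial.coeff_C]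
  split_ifs <;> simp

lemma DX_YY : DX 0 YY := fun j => by
  unfold YY; rw [Polynomial.coeff_X]
  split_ifs <;> simp

lemma DX_one : DX 0 1 := fun j => by
  rw [Polynomial.coeff_one]
  split_ifs <;> simp

lemma DX.dX {n : ℕ} {S : R2} (hS : DX n S) : DX n (dX S) := fun j => by
  rw [coeff_dX]
  exact (Polynomial.natDegree_derivative_le _).trans ((Nat.sub_le _ _).trans (hS j))

lemma DX.deriv {n : ℕ} {S : R2} (hS : DX n S) : DX n (Polynomial.derivative S) := fun j => by
  rw [Polynomial.coeff_derivative]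
  refine (Polynomial.natDegree_mul_le).trans ?_
  have : (((j : ℕ) : ℤ[X]) + 1).natDegree = 0 := by
    have : (((j : ℕ) : ℤ[X]) + 1) = Polynomial.C ((j : ℤ) + 1) := by simp
    rw [this, Polynomial.natDegree_C]
  rw [this, add_zero]; exact hS _

end Pool.Agent.Helper84.OV
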