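import Pool.Agent.Helper84.OV.ZE1

/-!
# Project OV: the zero estimate, assembly
-/

set_option autoImplicit false

open Finset

namespace Pool.Agent.Helper84.OV

open scoped Polynomial

/-- numerical part, conditions (1) and (2) -/
theorem ze_num (C0 M0 R D k s t : ℕ) (L lp lg lt lM lN lH : ℝ) (hC0 : 1 ≤ C0) (hM0 : 1 ≤ M0)
    (hR : R = 72 * M0 * C0 ^ 2) (hD : D = 960 * R * C0 ^ 2 * M0)
    (hL1 : 1 ≤ L) (hL2 : 18 * R * Real.log (1000 * R * C0) ≤ L) (hL3 : 96 * (C0 : ℝ) ^ 2 ≤ L)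
    (hL4 : 40 + 12 * (R : ℝ) ≤ L)
    (ht0 : 300 * M0 * C0 ≤ t) (hts : t ≤ s) (hk : (t : ℝ) / M0 - 2 ≤ k)
    (hlp : L / C0 ≤ lp) (hlg0 : 0 ≤ lg) (hlg : lg ≤ 3 * L / R) (hlt0 : 0 ≤ lt) (hlt : lt ≤ L / D)
    (hN : lN = Real.log C0 + lt) (hH : lH = 20 * C0 * t * lt)
    (hM : lM = Real.log 1000 + Real.log R + lN + lg + lH) :
    6 * R * lM + (3 * (C0 * t : ℕ) + 9 + 3 * R) * lg < k * lp ∧
    Real.log 2 + 14 * L + 18 * lM + (12 * (C0 * t : ℕ) + 40 + 12 * R) * (Real.log 2 + lg) < s * lp := by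
  have hC : (1 : ℝ) ≤ C0 := by exact_mod_cast hC0
  have hMR : (1 : ℝ) ≤ M0 := by exact_mod_cast hM0
  have hRR : (R : ℝ) = 72 * M0 * C0 ^ 2 := by rw [hR]; push_cast; ring
  have hCC : (1 : ℝ) ≤ (C0 : ℝ) ^ 2 := one_le_pow₀ hC
  have hMC : (1 : ℝ) ≤ (M0 : ℝ) * C0 ^ 2 := by nlinarith
  have hR72 : (72 : ℝ) ≤ R := by rw [hRR]; nlinarith
  have hRpos : (0 : ℝ) < R := by linarith
  have hDD : (D : ℝ) = 960 * R * C0 ^ 2 * M0 := by rw [hD]; push_cast; ring
  have hDpos : (0 : ℝ) < D := by rw [hDD]; positivity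
  have htR : (300 : ℝ) * M0 * C0 ≤ t := by exact_mod_cast ht0
  have htpos : (0 : ℝ) < t := by
    have : (0 : ℝ) < 300 * M0 * C0 := by positivity
    linarith
  have htsR : (t : ℝ) ≤ s := by exact_mod_cast hts
  have hLpos : 0 < L := by linarith
  -- log bound
  have hlog : Real.log 1000 + Real.log R + Real.log C0 = Real.log (1000 * R * C0) := by
    rw [Real.log_mul (by positivity) (by positivity), Real.log_mul (by norm_num) (by positivity)]
  have hlog0 : 0 ≤ Real.log (1000 * R * C0) := by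
    apply Real.log_nonneg
    nlinarith
  have e0 : lM = Real.log (1000 * R * C0) + lt + lg + 20 * C0 * t * lt := by
    rw [hM, hN, hH, ← hlog]; ring
  have hlt1 : lt * D ≤ L := by rwa [le_div_iff₀ hDpos] at hlt
  have hlg1 : lg * R ≤ 3 * L := by rwa [le_div_iff₀ hRpos] at hlg
  -- consequences
  have b1 : lt * R * C0 ^ 2 * M0 ≤ L / 960 := by
    rw [hDD] at hlt1
    rw [le_div_iff₀ (by norm_num : (0 : ℝ) < 960)]
    calc lt * R * C0 ^ 2 * M0 * 960 = lt * (960 * R * C0 ^ 2 * M0) := by ring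
      _ ≤ L := hlt1
  have b2 : lg * (M0 * C0 ^ 2) ≤ L / 24 := by
    rw [hRR] at hlg1
    rw [le_div_iff₀ (by norm_num : (0 : ℝ) < 24)]
    nlinarith
  -- `lt ≤ L / 960`, `lt * R ≤ L/960`
  have b3 : lt * R ≤ L / 960 := by
    refine le_trans ?_ b1
    have : 0 ≤ lt * R := by positivity
    nlinarith
  have b5 : lt ≤ L / 960 := by
    refine le_trans ?_ b3
    nlinarith
  have hC0pos : (0 : ℝ) < C0 := by linarith
  have hM0pos : (0 : ℝ) < M0 := by linarith
  -- terms proportional to `t`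
  have c1 : 120 * R * C0 * t * lt ≤ t * L / (8 * M0 * C0) := by
    rw [le_div_iff₀ (by positivity)]
    calc 120 * R * C0 * t * lt * (8 * M0 * C0) = 960 * t * (lt * R * C0 ^ 2 * M0) := by ring
      _ ≤ 960 * t * (L / 960) := by gcongr
      _ = t * L := by ring
  have c2 : 3 * C0 * t * lg ≤ t * L / (8 * M0 * C0) := by
    rw [le_div_iff₀ (by positivity)]
    calc 3 * C0 * t * lg * (8 * M0 * C0) = 24 * t * (lg * (M0 * C0 ^ 2)) := by ring
      _ ≤ 24 * t * (L / 24) := by gcongr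
      _ = t * L := by ring
  have d1 : (9 + 9 * R) * lg ≤ 54 * L := by
    have : (9 + 9 * R) * lg ≤ 18 * (lg * R) := by nlinarith
    linarith
  have hkp : ((t : ℝ) / M0 - 2) * (L / C0) ≤ k * lp := by
    have h1 : 0 ≤ L / C0 := by positivity
    calc ((t : ℝ) / M0 - 2) * (L / C0) ≤ k * (L / C0) := by gcongr
      _ ≤ k * lp := by gcongr
  have hLC : L / C0 ≤ L := div_le_self hLpos.le hC
  have htL : 300 * L ≤ t * L / (M0 * C0) := by
    rw [le_div_iff₀ (by positivity)]
    nlinarith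
  constructor
  · have e1 : 6 * (R : ℝ) * lM + (3 * (C0 * t : ℕ) + 9 + 3 * R) * lg =
        6 * R * Real.log (1000 * R * C0) + 6 * (lt * R) + 120 * R * C0 * t * lt + 3 * C0 * t * lg +
          (9 + 9 * R) * lg := by
      rw [e0]; push_cast; ring
    rw [e1]
    have e2 : t * L / (8 * M0 * C0) = t * L / (M0 * C0) / 8 := by
      rw [div_div]; congr 1; ring
    have e3 : ((t : ℝ) / M0 - 2) * (L / C0) = t * L / (M0 * C0) - 2 * (L / C0) := by
      field_simp
    rw [e2] at c1 c2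
    rw [e3] at hkp
    have e4 : 6 * (R : ℝ) * Real.log (1000 * R * C0) ≤ L := by nlinarith
    linarith
  · have hsp : t * L / C0 ≤ s * lp := by
      calc t * L / C0 = t * (L / C0) := by ring
        _ ≤ s * (L / C0) := by gcongr
        _ ≤ s * lp := by gcongr
    have hlog2 : Real.log 2 ≤ 1 := by
      have := Real.log_two_lt_d9; linarith
    have hlog2' : 0 ≤ Real.log 2 := Real.log_nonneg (by norm_num)
    have e1 : Real.log 2 + 14 * L + 18 * lM + (12 * (C0 * t : ℕ) + 40 + 12 * R) * (Real.log 2 + lg) =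
        Real.log 2 + 14 * L + 18 * Real.log (1000 * R * C0) + 18 * lt + 18 * lg + 360 * C0 * t * lt +
          12 * C0 * t * Real.log 2 + (40 + 12 * R) * Real.log 2 + 12 * C0 * t * lg +
          (40 + 12 * R) * lg := by
      rw [e0]; push_cast; ring
    rw [e1]
    have f1 : 18 * Real.log (1000 * R * C0) ≤ L := by nlinarith
    have f2 : 360 * C0 * t * lt ≤ t * L / C0 / 8 := by
      rw [le_div_iff₀ (by norm_num), le_div_iff₀ hC0pos]
      have : lt * C0 ^ 2 * 72 ≤ L / 960 := by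
        refine le_trans ?_ b1
        have h1 : 0 ≤ lt * C0 ^ 2 := by positivity
        calc lt * C0 ^ 2 * 72 ≤ lt * C0 ^ 2 * R := by gcongr
          _ ≤ lt * C0 ^ 2 * R * M0 := by
              have : 0 ≤ lt * C0 ^ 2 * R := by positivity
              nlinarith
          _ = lt * R * C0 ^ 2 * M0 := by ring
      calc 360 * C0 * t * lt * 8 * C0 = 40 * t * (lt * C0 ^ 2 * 72) := by ring
        _ ≤ 40 * t * (L / 960) := by gcongr
        _ ≤ t * L := by nlinarith
    have f3 : 12 * C0 * t * Real.log 2 ≤ t * L / C0 / 8 := by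
      rw [le_div_iff₀ (by norm_num), le_div_iff₀ hC0pos]
      calc 12 * C0 * t * Real.log 2 * 8 * C0 = t * (96 * C0 ^ 2) * Real.log 2 := by ring
        _ ≤ t * (96 * C0 ^ 2) * 1 := by gcongr
        _ ≤ t * L := by rw [mul_one]; gcongr
    have f4 : 12 * C0 * t * lg ≤ t * L / C0 / 2 := by
      rw [le_div_iff₀ (by norm_num), le_div_iff₀ hC0pos]
      have : lg * C0 ^ 2 ≤ L / 24 := by
        refine le_trans ?_ b2
        have h1 : 0 ≤ lg * C0 ^ 2 := by positivity
        nlinarith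
      calc 12 * C0 * t * lg * 2 * C0 = 24 * t * (lg * C0 ^ 2) := by ring
        _ ≤ 24 * t * (L / 24) := by gcongr
        _ = t * L := by ring
    have f5 : (40 + 12 * R) * Real.log 2 ≤ L := by
      calc (40 + 12 * (R : ℝ)) * Real.log 2 ≤ (40 + 12 * R) * 1 := by gcongr
        _ ≤ L := by linarith
    have f6 : (40 + 12 * R) * lg ≤ 38 * L := by
      have h1 : lg * 72 ≤ 3 * L := by
        refine le_trans ?_ hlg1
        gcongr
      nlinarith
    have f7 : 18 * lg ≤ L := by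
      have h1 : lg * 72 ≤ 3 * L := by
        refine le_trans ?_ hlg1
        gcongr
      linarith
    have f8 : 300 * L ≤ t * L / C0 := by
      rw [le_div_iff₀ hC0pos]
      have : 300 * (C0 : ℝ) ≤ t := by
        refine le_trans ?_ htR
        nlinarith
      nlinarith
    linarith

theorem ze (hZE1 : S_ZE1) (hCUR : ∀ R : ℕ, 1 ≤ R → ∃ K : ℕ, ∀ p q : ℕ, 2 ≤ p → p < q →
      K * q ^ 2 < p ^ R → ∃ G : R2, Irreducible G ∧ 1 ≤ G.natDegree ∧ G.natDegree ≤ R ∧ DX R G ∧
      ev p q G = 0 ∧ ev p q (Polynomial.derivative G) ≠ 0 ∧ nrm G ^ R ≤ K * q ^ 2)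
    (hGel : GelProp) (hDXD : S_DXD) (hMUL : S_MUL) : S_ZE := by
  intro C0 M0 hC0 hM0
  set R : ℕ := 72 * M0 * C0 ^ 2 with hR
  set D : ℕ := 960 * R * C0 ^ 2 * M0 with hD
  have hR1 : 1 ≤ R := by rw [hR]; exact Nat.pos_of_ne_zero (by positivity)
  have hR72 : 72 * C0 ≤ R := by
    rw [hR]
    calc 72 * C0 = 72 * 1 * C0 ^ 1 := by ring
      _ ≤ 72 * M0 * C0 ^ 2 :=
          Nat.mul_le_mul (Nat.mul_le_mul_left _ hM0) (Nat.pow_le_pow_right hC0 (by norm_num))
  obtain ⟨K, hK⟩ := hCUR R hR1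
  set L0 : ℝ := 1 + 18 * R * Real.log (1000 * R * C0) + 96 * (C0 : ℝ) ^ 2 + (40 + 12 * (R : ℝ)) with hL0
  obtain ⟨q1, hq1⟩ := exists_nat_ge (Real.exp L0)
  refine ⟨D, max (max q1 K) 3, 300 * M0 * C0 + 2 * C0 + 1, ?_⟩
  intro p q s t hp hq hpq hq0 hqp ht0 hts hsC htD hE e1 e2 he1 he2 A hA hAX hAY hAn
  have hC : (1 : ℝ) ≤ C0 := by exact_mod_cast hC0
  have hp2 := hp.two_le
  have hqq1 : q1 ≤ q := le_trans (le_trans (le_max_left _ _) (le_max_left _ _)) hq0
  have hqK : K ≤ q := le_trans (le_trans (le_max_right _ _) (le_max_left _ _)) hq0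
  have hq3 : 3 ≤ q := le_trans (le_max_right _ _) hq0
  have hqR : (0 : ℝ) < q := by positivity
  have hpR : (0 : ℝ) < p := by positivity
  set L : ℝ := Real.log q with hL
  have hL0L : L0 ≤ L := by
    rw [hL, Real.le_log_iff_exp_le hqR]
    exact hq1.trans (by exact_mod_cast hqq1)
  have hRR1 : (1 : ℝ) ≤ R := by exact_mod_cast hR1
  have hlog0 : 0 ≤ Real.log (1000 * R * C0) := by
    apply Real.log_nonneg
    nlinarith
  have hT1 : 0 ≤ 18 * R * Real.log (1000 * R * C0) := by positivity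
  have hT2 : (0 : ℝ) ≤ 96 * (C0 : ℝ) ^ 2 := by positivity
  have hT3 : (0 : ℝ) ≤ 40 + 12 * (R : ℝ) := by positivity
  have hL1 : 1 ≤ L := by linarith
  have hLpos : 0 < L := by linarith
  -- `log p`
  have hlp : L / C0 ≤ Real.log p := by
    rw [div_le_iff₀ (by linarith)]
    have : Real.log q ≤ Real.log ((p : ℝ) ^ C0) :=
      Real.log_le_log hqR (by exact_mod_cast hqp)
    rw [Real.log_pow] at this
    rw [hL]
    linarith
  -- the curve
  have hcond : K * q ^ 2 < p ^ R := by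
    have h1 : K * q ^ 2 ≤ q ^ 3 := by
      calc K * q ^ 2 ≤ q * q ^ 2 := Nat.mul_le_mul_right _ hqK
        _ = q ^ 3 := by ring
    have h2 : q ^ 3 < q ^ 72 := Nat.pow_lt_pow_right (by omega) (by norm_num)
    have h3 : q ^ 72 ≤ p ^ R := by
      calc q ^ 72 ≤ (p ^ C0) ^ 72 := Nat.pow_le_pow_left hqp 72
        _ = p ^ (72 * C0) := by rw [← pow_mul]; congr 1; ring
        _ ≤ p ^ R := Nat.pow_le_pow_right (by omega) hR72
    omega
  obtain ⟨G, hG, hGd, hGR, hGX, hGev, hGd0, hGn⟩ := hK p q hp2 hpq hcond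
  have hG0 : G ≠ 0 := hG.ne_zero
  obtain ⟨m, B, hAB, hB⟩ := hMUL G A hGd hA
  have hGm : G ^ m ≠ 0 := pow_ne_zero _ hG0
  set N : ℕ := C0 * t with hN
  have ht1 : 1 ≤ t := by omega
  have hN1 : 1 ≤ N := by rw [hN]; exact Nat.mul_pos hC0 ht1
  have hBX : ∀ i, DX N (B i) := by
    intro i
    apply hDXD (B i) (G ^ m) N hGm
    rw [mul_comm, ← hAB]; exact hAX i
  have hBY : ∀ i, (B i).natDegree ≤ N := by
    intro i
    by_cases h0 : B i = 0
    · rw [h0]; simp
    · have := hAY i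
      rw [hAB, Polynomial.natDegree_mul hGm h0] at this
      omega
  have hBn : ∀ i, nrm (B i) ≤ t ^ (20 * C0 * t) := by
    intro i
    have h1 := hGel (B i) (G ^ m) N hN1 hGm (by rw [mul_comm, ← hAB]; exact hAX i)
      (by rw [mul_comm, ← hAB]; exact hAY i)
    rw [mul_comm (B i), ← hAB] at h1
    refine h1.trans ?_
    have h2 : 2 * N + 1 ≤ t ^ 2 := by
      rw [hN]
      have : 2 * C0 + 1 ≤ t := by omega
      nlinarith
    calc (2 * N + 1) ^ (4 * N + 3) * nrm (A i) ≤ (t ^ 2) ^ (4 * N + 3) * t ^ (C0 * t) :=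
          Nat.mul_le_mul (Nat.pow_le_pow_left h2 _) (hAn i)
      _ = t ^ (2 * (4 * N + 3) + C0 * t) := by rw [← pow_mul, ← pow_add]
      _ ≤ t ^ (20 * C0 * t) := by
          apply Nat.pow_le_pow_right ht1
          have : 20 * C0 * t = 20 * N := by rw [hN]; ring
          rw [this, ← hN]
          omega
  refine ⟨G, m, B, hG, hGev, hAB, hBX, hBY, hBn, ?_⟩
  -- parameters
  set g := nrm G with hg
  have hg1 : 1 ≤ g := nrm_pos hG0
  have hgR : (1 : ℝ) ≤ g := by exact_mod_cast hg1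
  set H : ℕ := t ^ (20 * C0 * t) with hH
  have hH1 : 1 ≤ H := Nat.one_le_pow _ _ ht1
  set k : ℕ := t / M0 - 1 with hk
  have htM : 300 ≤ t / M0 := by
    rw [Nat.le_div_iff_mul_le hM0]
    calc 300 * M0 = 300 * M0 * 1 := by ring
      _ ≤ 300 * M0 * C0 := Nat.mul_le_mul_left _ hC0
      _ ≤ t := by omega
  have hk1 : M0 * (k + 1) ≤ t := by
    rw [hk, Nat.sub_add_cancel (by omega)]
    exact Nat.mul_div_le t M0
  have hkR : (t : ℝ) / M0 - 2 ≤ k := by
    have h1 : (t : ℝ) / M0 < (t / M0 : ℕ) + 1 := by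
      rw [div_lt_iff₀ (by exact_mod_cast hM0)]
      have := Nat.lt_mul_div_succ t hM0
      rw [mul_comm]
      exact_mod_cast this
    have h2 : (k : ℝ) = (t / M0 : ℕ) - 1 := by
      rw [hk, Nat.cast_sub (by omega)]; simp
    rw [h2]; linarith
  have hlt0 : 0 ≤ Real.log t := Real.log_nonneg (by exact_mod_cast ht1)
  have hDpos : (0 : ℝ) < D := by
    rw [hD]; push_cast
    have : (0 : ℝ) < M0 := by exact_mod_cast hM0
    positivity
  have htR0 : (0 : ℝ) < t := by exact_mod_cast ht1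
  have hlt : Real.log t ≤ L / D := by
    rw [le_div_iff₀ hDpos]
    have : Real.log ((t : ℝ) ^ D) ≤ Real.log q :=
      Real.log_le_log (by positivity) (by exact_mod_cast htD)
    rw [Real.log_pow] at this
    rw [hL]; linarith
  have hlg0 : 0 ≤ Real.log g := Real.log_nonneg hgR
  have hlg : Real.log g ≤ 3 * L / R := by
    rw [le_div_iff₀ (by linarith)]
    have h1 : g ^ R ≤ q ^ 3 := by
      refine hGn.trans ?_
      calc K * q ^ 2 ≤ q * q ^ 2 := Nat.mul_le_mul_right _ hqK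
        _ = q ^ 3 := by ring
    have h2 : Real.log ((g : ℝ) ^ R) ≤ Real.log ((q : ℝ) ^ 3) :=
      Real.log_le_log (by positivity) (by exact_mod_cast h1)
    rw [Real.log_pow, Real.log_pow] at h2
    push_cast at h2
    rw [hL]; linarith
  set M : ℕ := 1000 * R * N * g * H with hM
  have hMpos : 0 < M := by
    rw [hM]; exact Nat.pos_of_ne_zero (by positivity)
  have hlN : Real.log (N : ℕ) = Real.log C0 + Real.log t := by
    rw [hN]; push_cast
    rw [Real.log_mul (by positivity) (by positivity)]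
  have hlH : Real.log (H : ℕ) = 20 * C0 * t * Real.log t := by
    rw [hH]; push_cast
    rw [Real.log_pow]; push_cast; ring
  have hNpos : (0 : ℝ) < N := by exact_mod_cast hN1
  have hHpos : (0 : ℝ) < H := by exact_mod_cast hH1
  have hlM : Real.log M = Real.log 1000 + Real.log R + Real.log (N : ℕ) + Real.log g +
      Real.log (H : ℕ) := by
    rw [hM]; push_cast
    rw [Real.log_mul (by positivity) (by positivity), Real.log_mul (by positivity) (by positivity),
      Real.log_mul (by positivity) (by positivity), Real.log_mul (by positivity) (by positivity)]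
  obtain ⟨n1', n2'⟩ := ze_num C0 M0 R D k s t L (Real.log p) (Real.log g) (Real.log t) (Real.log M)
    (Real.log (N : ℕ)) (Real.log (H : ℕ)) hC0 hM0 hR hD hL1 (by linarith) (by linarith) (by linarith)
    (by omega) hts hkR hlp hlg0 hlg hlt0 hlt hlN hlH hlM
  rw [← hN] at n1' n2'
  have cond1 : (1000 * R * N * nrm G * H) ^ (6 * R) * nrm G ^ (3 * N + 9 + 3 * R) < (p : ℤ).natAbs ^ k := by
    rw [← hg, ← hM, Int.natAbs_natCast]
    have : ((M ^ (6 * R) * g ^ (3 * N + 9 + 3 * R) : ℕ) : ℝ) < ((p ^ k : ℕ) : ℝ) := by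
      push_cast
      rw [← Real.log_lt_log_iff (by positivity) (by positivity), Real.log_mul (by positivity) (by positivity),
        Real.log_pow, Real.log_pow, Real.log_pow]
      push_cast
      linarith
    exact_mod_cast this
  have he1' : e1 ^ 2 = 1 := by rcases he1 with h | h <;> rw [h] <;> norm_num
  have he2' : e2 ^ 2 = 1 := by rcases he2 with h | h <;> rw [h] <;> norm_num
  have heA : |e1| = 1 := by rcases he1 with h | h <;> rw [h] <;> norm_num
  have hUabs : |e1 * (p : ℤ) ^ s| = (p : ℤ) ^ s := by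
    rw [abs_mul, heA, one_mul, abs_of_nonneg (by positivity)]
  have cond2 : 2 * (q : ℤ) ^ 14 * ((1000 * R * N * nrm G * H : ℕ) : ℤ) ^ 18 *
      (2 * nrm G) ^ (12 * N + 40 + 12 * R) < |e1 * (p : ℤ) ^ s| := by
    rw [hUabs, ← hg, ← hM]
    have : ((2 * q ^ 14 * M ^ 18 * (2 * g) ^ (12 * N + 40 + 12 * R) : ℕ) : ℝ) < ((p ^ s : ℕ) : ℝ) := by
      push_cast
      rw [← Real.log_lt_log_iff (by positivity) (by positivity), Real.log_mul (by positivity) (by positivity),
        Real.log_mul (by positivity) (by positivity), Real.log_mul (by positivity) (by positivity),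
        Real.log_pow, Real.log_pow, Real.log_pow, Real.log_pow, Real.log_mul (by positivity) (by positivity)]
      push_cast
      linarith
    exact_mod_cast this
  obtain ⟨w, hw1, hw2⟩ := hZE1 G p q (e1 * (p : ℤ) ^ s) (e2 * (q : ℤ) ^ t) s k R N H B hG hGd hGR hGX hGev hGd0
    (by exact_mod_cast hp2) (by exact_mod_cast hpq) (Nat.prime_iff_prime_int.1 hp)
    (Nat.prime_iff_prime_int.1 hq)
    (by rcases he1 with h | h
        · left; rw [h, one_mul]
        · right; rw [h]; ring)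
    (by
      have h1 : (e1 * (p : ℤ) ^ s) ^ 2 = ((p : ℤ) ^ s) ^ 2 := by rw [mul_pow, he1', one_mul]
      have h2 : (e2 * (q : ℤ) ^ t) ^ 2 = (q : ℤ) ^ (2 * t) := by
        rw [mul_pow, he2', one_mul, ← pow_mul, mul_comm]
      rw [h1, h2, hE, pow_succ]
      ring)
    hB hN1 hH1 hBX hBY hBn cond1 cond2
  exact ⟨w, (Nat.mul_le_mul_left M0 hw1).trans hk1, hw2⟩

end Pool.Agent.Helper84.OV
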