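import Pool.Agent.Helper84.OV.Zero

/-!
# Project OV: the zero estimate for one curve, from the packets
-/

set_option autoImplicit false

open Finset

namespace Pool.Agent.Helper84.OV

open scoped Polynomial

theorem isUnit_ps {f : PowerSeries ℚ} (h : PowerSeries.constantCoeff f ≠ 0) : IsUnit f := by
  rw [PowerSeries.isUnit_iff_constantCoeff]
  exact isUnit_iff_ne_zero.2 h

theorem ze1 (hLD2 : S_LD2) (hLD3 : S_LD3) (hORD : OrdProp) (hKER : KerProp) (hPSI : S_PSI)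
    (hSQR : S_SQR) (hUVH : S_UVH) (hWDT : S_WDT) (hWRD : S_WRD) (hFOR : S_FOR) (hFZR : S_FZR)
    (hHTN : S_HTN) (hCHT : S_CHT) (hNUV : S_NUV) (hFWR : S_FWR) (hFPR : S_FPR) : S_ZE1 := by
  intro G p q U V s k R N H B hG hd hdR hDXG hev hevd hp hpq hpp hqp hU hE hB hN hH hDX hnd hnrm
    hsize hbig
  by_contra hcon0
  have hcon : ∀ w : List Bool, w.length ≤ k + 1 → evt p q U V (nab w B) = 0 := by
    intro w hw
    by_contra h
    exact hcon0 ⟨w, hw, h⟩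
  obtain ⟨Ψ, hΨ⟩ := hPSI G p q hev
  obtain ⟨uh, vh, huv⟩ := hUVH hSQR G p q Ψ hΨ hp hpq
  have h1 := hWRD G p q U V B (k + 1) hcon
  have h2 := hFOR hWDT G p q U V Ψ uh vh B (k + 1) hp hpq hΨ huv h1
  obtain ⟨hw1, hw2, hw3⟩ := hWDT G p q Ψ uh vh B hΨ huv
  have hR1 : 1 ≤ R := hd.trans hdR
  obtain ⟨hh2, hhd3, hh3⟩ := hHTN G B R N H hR1 hN hH hdR hDXG hDX hnd hnrm
  have hG0 : G ≠ 0 := hG.ne_zero
  have hg1 : 1 ≤ nrm G := nrm_pos hG0
  set M : ℕ := 1000 * R * N * nrm G * H with hM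
  have hHM : H ≤ M := by
    rw [hM]
    calc H = 1 * 1 * 1 * 1 * H := by ring
      _ ≤ 1000 * R * N * nrm G * H := by gcongr <;> norm_num
  have hM1 : 1 ≤ M := hH.trans hHM
  have small : ∀ S : R2, S.natDegree ≤ 3 * N + 9 + 3 * R → nrm S ≤ M ^ 6 →
      PowerSeries.X ^ k ∣ Ψ S → Ψ S = 0 := by
    intro S hS hn hX
    by_contra h0
    have hnd : ¬ G ∣ S := by
      rintro ⟨T, rfl⟩
      apply h0
      rw [map_mul, hΨ.zero, zero_mul]
    have h3 := hORD G p q Ψ hΨ hG hd hevd S (3 * N + 9 + 3 * R) k hnd hS hX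
    have h4 : nrm S ^ G.natDegree * nrm G ^ (3 * N + 9 + 3 * R) ≤
        M ^ (6 * R) * nrm G ^ (3 * N + 9 + 3 * R) := by
      apply Nat.mul_le_mul_right
      calc nrm S ^ G.natDegree ≤ (M ^ 6) ^ G.natDegree := Nat.pow_le_pow_left hn _
        _ ≤ (M ^ 6) ^ R := Nat.pow_le_pow_right (Nat.pos_of_ne_zero (by positivity)) hdR
        _ = M ^ (6 * R) := by rw [← pow_mul]
    omega
  have uu : IsUnit uh := isUnit_ps (by rw [huv.u0]; exact one_ne_zero)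
  have uv : IsUnit vh := isUnit_ps (by rw [huv.v0]; exact one_ne_zero)
  have uE : IsUnit (Ψ EE) := by
    apply isUnit_ps
    rw [hΨ.ev, ev_EE]
    have e1 : p ≠ 0 := by omega
    have e2 : q ≠ 0 := by omega
    have e3 : 1 - p ≠ 0 := by omega
    have e4 : 1 - q ≠ 0 := by omega
    have e5 : p - q ≠ 0 := by omega
    exact_mod_cast (by positivity : 2 * p * q * (1 - p) * (1 - q) * (p - q) ≠ 0)
  have ud : ∀ i : Fin 3, IsUnit ((![1, uh, vh] : Fin 3 → PowerSeries ℚ) i) := by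
    intro i
    fin_cases i
    · simp
    · simpa using uu
    · simpa using uv
  have f_eq : ∀ i, ff Ψ uh vh B i = (![1, uh, vh] : Fin 3 → PowerSeries ℚ) i * Ψ (B i) := by
    intro i
    fin_cases i <;> simp [ff]
  have hB6 : ∀ i, nrm (B i) ≤ M ^ 6 := fun i =>
    (hnrm i).trans (hHM.trans (Nat.le_self_pow (by norm_num) M))
  have z1 : ∀ i, PowerSeries.X ^ k ∣ ff Ψ uh vh B i → ff Ψ uh vh B i = 0 := by
    intro i hi
    rw [f_eq] at hi ⊢
    rw [(ud i).dvd_mul_left] at hi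
    rw [small (B i) ((hnd i).trans (by omega)) (hB6 i) hi, mul_zero]
  have z2 : ∀ i j, PowerSeries.X ^ k ∣ w2 (ff Ψ uh vh B) (fun i => dd (ff Ψ uh vh B i)) i j →
      w2 (ff Ψ uh vh B) (fun i => dd (ff Ψ uh vh B i)) i j = 0 := by
    intro i j hi
    have e1 := hw2 i j
    have e2 : PowerSeries.X ^ k ∣ Ψ (w2 B (naD G B) i j) := by
      have e3 : PowerSeries.X ^ k ∣ (![1, uh, vh] : Fin 3 → PowerSeries ℚ) i *
          (![1, uh, vh] : Fin 3 → PowerSeries ℚ) j * Ψ (w2 B (naD G B) i j) := by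
        rw [← e1]; exact hi.mul_right _
      rwa [((ud i).mul (ud j)).dvd_mul_left] at e3
    have e4 : Ψ (w2 B (naD G B) i j) = 0 := by
      apply small _ (hh2 i j).1 _ e2
      refine (hh2 i j).2.trans ?_
      exact Nat.pow_le_pow_right hM1 (by norm_num)
    rw [e4, mul_zero] at e1
    exact (uE.mul_left_eq_zero).1 e1
  have z3 : PowerSeries.X ^ k ∣ w3 (ff Ψ uh vh B) (fun i => dd (ff Ψ uh vh B i))
      (fun i => dd (dd (ff Ψ uh vh B i))) →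
      w3 (ff Ψ uh vh B) (fun i => dd (ff Ψ uh vh B i)) (fun i => dd (dd (ff Ψ uh vh B i))) = 0 := by
    intro hi
    have e2 : PowerSeries.X ^ k ∣ Ψ (w3 B (naD G B) (naD G (naD G B))) := by
      have e3 : PowerSeries.X ^ k ∣ uh * vh * Ψ (w3 B (naD G B) (naD G (naD G B))) := by
        rw [← hw3]; exact hi.mul_right _
      rwa [(uu.mul uv).dvd_mul_left] at e3
    have e4 := small _ hhd3 hh3 e2
    have e1 := hw3
    rw [e4, mul_zero] at e1
    exact ((uE.pow 3).mul_left_eq_zero).1 e1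
  have hF := hFZR hLD2 hLD3 (ff Ψ uh vh B) (U : ℚ) (V : ℚ) k z1 z2 z3 h2
  -- sizes
  have hg0 : (0 : ℤ) ≤ nrm G := by positivity
  have hgge : (1 : ℤ) ≤ 2 * nrm G := by
    have : (1 : ℤ) ≤ nrm G := by exact_mod_cast hg1
    omega
  have hMZ : (1 : ℤ) ≤ M := by exact_mod_cast hM1
  have hUpos : 0 < |U| := by
    refine lt_of_le_of_lt ?_ hbig
    positivity
  have hUsq : |U| ≤ U ^ 2 := by
    rw [← sq_abs]
    nlinarith
  have hq1 : (1 : ℤ) ≤ q ^ 14 := one_le_pow₀ (by omega)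
  have hW := hFWR hCHT hKER hWDT G p q U V s (3 * N + 9 + 3 * R) (M ^ 4) Ψ uh vh B hΨ huv hG hd hevd hp hpq
    hpp hqp hU (fun i j => (hh2 i j).1) (fun i j => (hh2 i j).2) hF (by
      refine lt_of_le_of_lt ?_ (hbig.trans_le hUsq)
      have a1 : ((M ^ 4 : ℕ) : ℤ) ^ 2 ≤ (M : ℤ) ^ 18 := by
        push_cast
        rw [← pow_mul]
        exact pow_le_pow_right₀ hMZ (by norm_num)
      have a2 : (2 * (nrm G : ℤ)) ^ (2 * (3 * N + 9 + 3 * R) + 2) ≤ (2 * (nrm G : ℤ)) ^ (12 * N + 40 + 12 * R) :=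
        pow_le_pow_right₀ hgge (by omega)
      calc 2 * ((M ^ 4 : ℕ) : ℤ) ^ 2 * (2 * (nrm G : ℤ)) ^ (2 * (3 * N + 9 + 3 * R) + 2)
          ≤ 2 * (M : ℤ) ^ 18 * (2 * (nrm G : ℤ)) ^ (12 * N + 40 + 12 * R) := by gcongr
        _ = 2 * 1 * (M : ℤ) ^ 18 * (2 * (nrm G : ℤ)) ^ (12 * N + 40 + 12 * R) := by ring
        _ ≤ 2 * q ^ 14 * (M : ℤ) ^ 18 * (2 * (nrm G : ℤ)) ^ (12 * N + 40 + 12 * R) := by gcongr)
  refine hFPR hCHT hKER hLD2 hNUV G p q U V N H Ψ uh vh B hΨ huv hG hd hevd hp hpq hE hB hnd hnrm hF hW ?_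
  refine lt_of_le_of_lt ?_ hbig
  have hHZ : (H : ℤ) ≤ M := by exact_mod_cast hHM
  have hH0 : (0 : ℤ) ≤ H := by positivity
  have hM1000 : (1000 : ℤ) ≤ M := by
    have : 1000 ≤ M := by
      rw [hM]
      calc 1000 = 1000 * 1 * 1 * 1 * 1 := by ring
        _ ≤ 1000 * R * N * nrm G * H := by gcongr
    exact_mod_cast this
  calc 2 * q ^ 14 * (4 * (H : ℤ) ^ 2 * (2 * (nrm G : ℤ)) ^ (2 * N + 3)) ^ 2
      = 2 * q ^ 14 * (16 * (H : ℤ) ^ 4) * (2 * (nrm G : ℤ)) ^ (4 * N + 6) := by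
        rw [mul_pow, mul_pow, ← pow_mul, ← pow_mul]
        ring
    _ ≤ 2 * q ^ 14 * (M ^ 14 * (M : ℤ) ^ 4) * (2 * (nrm G : ℤ)) ^ (12 * N + 40 + 12 * R) := by
        have a1 : (2 * (nrm G : ℤ)) ^ (4 * N + 6) ≤ (2 * (nrm G : ℤ)) ^ (12 * N + 40 + 12 * R) :=
          pow_le_pow_right₀ hgge (by omega)
        have a2 : (16 : ℤ) ≤ M ^ 14 := by
          calc (16 : ℤ) ≤ M := by linarith
            _ ≤ M ^ 14 := le_self_pow₀ hMZ (by norm_num)
        gcongr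
    _ = 2 * q ^ 14 * (M : ℤ) ^ 18 * (2 * (nrm G : ℤ)) ^ (12 * N + 40 + 12 * R) := by
        rw [← pow_add]

end Pool.Agent.Helper84.OV
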